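import Pool.Agent.H61.TT.Area

/-!
# ATT+: exactly invariant line fields

`hull_null`: a null set is contained in a completely invariant measurable null set. `cl`: from a bounded measurable field with complex values, zero off the completely invariant set `G`, invariant almost everywhere and not zero almost everywhere, to a smaller completely invariant set of positive area off a given null set, on which a field of modulus one is exactly invariant.
-/

set_option autoImplicit false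

open Filter Topology Polynomial Metric Set MeasureTheory

namespace Pool.Agent.H91.ATT

open Pool.Agent.H61.TT

variable {d : ℕ} {a b : Polynomial ℂ}

theorem null_img {N : Set ℂ} (hN : volume N = 0) :
    volume (gg a b '' (N ∩ {z | b.eval z ≠ 0})) = 0 := by
  refine addHaar_image_eq_zero_of_differentiableOn_of_addHaar_eq_zero volume ?_
    (measure_mono_null inter_subset_left hN)
  intro z hz
  have h1 : HasDerivAt (gg a b) (dg a b z) z := hasDerivAt_gg hz.2
  exact (h1.hasFDerivAt.restrictScalars ℝ).differentiableAt.differentiableWithinAt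

/-- a null set is contained in a completely invariant null set -/
theorem hull_null (h : RatD d a b) {N : Set ℂ} (hN : volume N = 0) : ∃ N' : Set ℂ, N ⊆ N' ∧ MeasurableSet N' ∧
    volume N' = 0 ∧ ∀ z : ℂ, b.eval z ≠ 0 → (gg a b z ∈ N' ↔ z ∈ N') := by
  obtain ⟨Φ, hΦ⟩ : ∃ Φ : Set ℂ → Set ℂ, Φ = fun S =>
    toMeasurable volume (S ∪ pre a b S ∪ gg a b '' (S ∩ {z | b.eval z ≠ 0})) := ⟨_, rfl⟩
  have hn : ∀ S : Set ℂ, volume S = 0 → volume (Φ S) = 0 := by
    intro S hS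
    rw [hΦ]
    show volume (toMeasurable volume _) = 0
    rw [measure_toMeasurable]
    exact measure_union_null (measure_union_null hS (null_pre h hS)) (null_img hS)
  have hm : ∀ S : Set ℂ, MeasurableSet (Φ S) := by
    intro S
    rw [hΦ]
    exact measurableSet_toMeasurable _ _
  have hs : ∀ S : Set ℂ, S ∪ pre a b S ∪ gg a b '' (S ∩ {z | b.eval z ≠ 0}) ⊆ Φ S := by
    intro S
    rw [hΦ]
    exact subset_toMeasurable _ _
  have hit : ∀ k : ℕ, volume (Φ^[k] N) = 0 := by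
    intro k
    induction k with
    | zero => exact hN
    | succ k ih =>
      rw [Function.iterate_succ_apply']
      exact hn _ ih
  refine ⟨⋃ k : ℕ, Φ^[k + 1] N, ?_, ?_, ?_, ?_⟩
  · intro z hz
    exact mem_iUnion.2 ⟨0, hs _ (Or.inl (Or.inl hz))⟩
  · refine MeasurableSet.iUnion fun k => ?_
    rw [Function.iterate_succ_apply']
    exact hm _
  · exact measure_iUnion_null fun k => hit _
  · intro z hz
    constructor
    · intro h1
      obtain ⟨k, hk⟩ := mem_iUnion.1 h1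
      refine mem_iUnion.2 ⟨k + 1, ?_⟩
      rw [Function.iterate_succ_apply']
      exact hs _ (Or.inl (Or.inr ⟨hz, hk⟩))
    · intro h1
      obtain ⟨k, hk⟩ := mem_iUnion.1 h1
      refine mem_iUnion.2 ⟨k + 1, ?_⟩
      rw [Function.iterate_succ_apply']
      exact hs _ (Or.inr ⟨z, ⟨hk, hz⟩, rfl⟩)

theorem cl (h : RatD d a b) {G : Set ℂ} {μ : ℂ → ℂ} (hGm : MeasurableSet G) (hGb : ∀ z ∈ G, b.eval z ≠ 0)
    (hGi : ∀ z : ℂ, b.eval z ≠ 0 → (gg a b z ∈ G ↔ z ∈ G)) (hμm : Measurable μ) (hμ0 : ∀ z, z ∉ G → μ z = 0)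
    (hμi : ∀ᵐ z : ℂ, b.eval z ≠ 0 → μ (gg a b z) * (starRingEnd ℂ) (dg a b z) = μ z * dg a b z)
    (hμp : 0 < volume {z | μ z ≠ 0}) {S : Set ℂ} (hS : volume S = 0) :
    ∃ (G' : Set ℂ) (ν : ℂ → ℂ), G' ⊆ G ∧ (∀ z ∈ G', z ∉ S) ∧ MeasurableSet G' ∧ 0 < volume G' ∧
      (∀ z : ℂ, b.eval z ≠ 0 → (gg a b z ∈ G' ↔ z ∈ G')) ∧ Measurable ν ∧ (∀ z ∈ G', ‖ν z‖ = 1) ∧
      ∀ z ∈ G', ν (gg a b z) * (starRingEnd ℂ) (dg a b z) = ν z * dg a b z := by
  obtain ⟨N0, hN0⟩ : ∃ N0 : Set ℂ, N0 = {z | ¬ (ww a b).eval z ≠ 0} ∪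
    {z | ¬ (b.eval z ≠ 0 → μ (gg a b z) * (starRingEnd ℂ) (dg a b z) = μ z * dg a b z)} ∪ S := ⟨_, rfl⟩
  have hN0v : volume N0 = 0 := by
    rw [hN0]
    exact measure_union_null (measure_union_null (ae_ww h) hμi) hS
  obtain ⟨N, hNN, hNm, hNv, hNi⟩ := hull_null h hN0v
  have hd : ∀ z : ℂ, b.eval z ≠ 0 → z ∉ N → dg a b z ≠ 0 := by
    intro z hb hz
    rw [dg_ne hb]
    by_contra h0
    exact hz (hNN (by rw [hN0]; exact Or.inl (Or.inl fun h1 => h1 h0)))
  have hr : ∀ z : ℂ, b.eval z ≠ 0 → z ∉ N → μ (gg a b z) * (starRingEnd ℂ) (dg a b z) = μ z * dg a b z := by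
    intro z hb hz
    by_contra h0
    exact hz (hNN (by rw [hN0]; exact Or.inl (Or.inr fun h1 => h0 (h1 hb))))
  have hc : ∀ z : ℂ, dg a b z ≠ 0 → (starRingEnd ℂ) (dg a b z) ≠ 0 := fun z hz => by
    rw [Ne, map_eq_zero]
    exact hz
  have hnz : ∀ z : ℂ, b.eval z ≠ 0 → z ∉ N → (μ (gg a b z) ≠ 0 ↔ μ z ≠ 0) := by
    intro z hb hz
    have h1 := hr z hb hz
    have h2 := hd z hb hz
    constructor
    · intro h3 h4
      rw [h4, zero_mul] at h1
      rcases mul_eq_zero.1 h1 with h5 | h5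
      · exact h3 h5
      · exact hc z h2 h5
    · intro h3 h4
      rw [h4, zero_mul] at h1
      rcases mul_eq_zero.1 h1.symm with h5 | h5
      · exact h3 h5
      · exact h2 h5
  refine ⟨{z | z ∈ G ∧ z ∉ N ∧ μ z ≠ 0}, fun z => μ z / ((‖μ z‖ : ℝ) : ℂ), fun z hz => hz.1,
    fun z hz hzS => hz.2.1 (hNN (by rw [hN0]; exact Or.inr hzS)), ?_, ?_, ?_, ?_, ?_, ?_⟩
  · exact hGm.inter (hNm.compl.inter (hμm (measurableSet_singleton (0 : ℂ)).compl))
  · refine hμp.trans_le ?_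
    have h1 : {z | μ z ≠ 0} ⊆ {z | z ∈ G ∧ z ∉ N ∧ μ z ≠ 0} ∪ N := by
      intro z hz
      by_cases hzN : z ∈ N
      · exact Or.inr hzN
      · refine Or.inl ⟨?_, hzN, hz⟩
        by_contra h2
        exact hz (hμ0 z h2)
    refine (measure_mono h1).trans ((measure_union_le _ _).trans ?_)
    rw [hNv, add_zero]
  · intro z hb
    constructor
    · rintro ⟨h1, h2, h3⟩
      have h4 : z ∉ N := fun h5 => h2 ((hNi z hb).2 h5)
      exact ⟨(hGi z hb).1 h1, h4, (hnz z hb h4).1 h3⟩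
    · rintro ⟨h1, h2, h3⟩
      exact ⟨(hGi z hb).2 h1, fun h5 => h2 ((hNi z hb).1 h5), (hnz z hb h2).2 h3⟩
  · exact hμm.div (Complex.measurable_ofReal.comp hμm.norm)
  · rintro z ⟨h1, h2, h3⟩
    rw [norm_div, Complex.norm_real, norm_norm]
    exact div_self (norm_ne_zero_iff.2 h3)
  · rintro z ⟨h1, h2, h3⟩
    have hb := hGb z h1
    have h4 := hr z hb h2
    have h5 := hd z hb h2
    have h6 : ‖μ (gg a b z)‖ = ‖μ z‖ := by
      have h7 := congrArg norm h4
      rw [norm_mul, norm_mul, RCLike.norm_conj] at h7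
      exact mul_right_cancel₀ (norm_ne_zero_iff.2 h5) h7
    show μ (gg a b z) / ((‖μ (gg a b z)‖ : ℝ) : ℂ) * _ = μ z / ((‖μ z‖ : ℝ) : ℂ) * _
    rw [h6, div_mul_eq_mul_div, h4, div_mul_eq_mul_div]

end Pool.Agent.H91.ATT
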