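import Pool.Agent.H91.ATT.Mb
import Pool.Agent.H61.TT.Fib

/-!
# ATT+: line fields and Moebius charts

`LFd f G ν`: `ν` is a measurable field of modulus one on `G` which is invariant under `f`: `ν(w) conj f'(z) = ν(z) f'(z)` for all finite points `z` of `G` with `w = f(z)` finite. `lf_tr`: an invariant field of `Rf u` on a set `G` of the plane gives one of `Rf v` on the preimage of `G` under the Moebius conjugacy `φ`.
-/

set_option autoImplicit false

open Filter Topology Polynomial Metric Set MeasureTheory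

namespace Pool.Agent.H91.ATT

open Pool.Agent.H44.Fatou (rat rat_continuous rat_coe rat_coe_of_ne pt)
open Pool.Agent.H32.BT Pool.Agent.H79.Eul Pool.Agent.H79.Par
open Pool.Agent.H61.TT (gg dg ww hasDerivAt_gg)

/-- the finite part of a point of the sphere -/
noncomputable def fp (x : OnePoint ℂ) : ℂ := OnePoint.elim x 0 id

theorem fp_coe (z : ℂ) : fp (z : OnePoint ℂ) = z := rfl

/-- `ν` is an invariant line field of `f` on `G` -/
def LFd (f : OnePoint ℂ → OnePoint ℂ) (G : Set (OnePoint ℂ)) (ν : ℂ → ℂ) : Prop :=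
  Measurable ν ∧ (∀ z : ℂ, (z : OnePoint ℂ) ∈ G → ‖ν z‖ = 1) ∧
    ∀ z w : ℂ, (z : OnePoint ℂ) ∈ G → f (z : OnePoint ℂ) = (w : OnePoint ℂ) →
      ν w * (starRingEnd ℂ) (deriv (fun t : ℂ => fp (f (t : OnePoint ℂ))) z) =
        ν z * deriv (fun t : ℂ => fp (f (t : OnePoint ℂ))) z

variable {d : ℕ}

theorem rf_ne {v : E d} {z w : ℂ} (h : Rf v (z : OnePoint ℂ) = (w : OnePoint ℂ)) : (pol v.2).eval z ≠ 0 := by
  intro hb
  have h1 : Rf v (z : OnePoint ℂ) = OnePoint.infty := by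
    show rat (pol v.1) (pol v.2) _ = _
    rw [rat_coe]
    unfold pt
    rw [if_pos hb]
  rw [h1] at h
  exact OnePoint.infty_ne_coe w h

theorem rf_gg {v : E d} {z : ℂ} (hz : (pol v.2).eval z ≠ 0) :
    Rf v (z : OnePoint ℂ) = ((gg (pol v.1) (pol v.2) z : ℂ) : OnePoint ℂ) := rat_coe_of_ne hz

theorem der_rf {v : E d} {z : ℂ} (hz : (pol v.2).eval z ≠ 0) :
    deriv (fun t : ℂ => fp (Rf v (t : OnePoint ℂ))) z = dg (pol v.1) (pol v.2) z := by
  have h1 : (fun t : ℂ => fp (Rf v (t : OnePoint ℂ))) =ᶠ[𝓝 z] gg (pol v.1) (pol v.2) := by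
    have h2 : ∀ᶠ t in 𝓝 z, (pol v.2).eval t ≠ 0 :=
      (pol v.2).continuous.continuousAt.eventually_ne hz
    filter_upwards [h2] with t ht
    rw [rf_gg ht, fp_coe]
  exact ((hasDerivAt_gg hz).congr_of_eventuallyEq h1).deriv

/-- transport of an invariant field by a Moebius map -/
theorem lf_tr {v u : E d} {φ : OnePoint ℂ ≃ₜ OnePoint ℂ} (hφ : Mb φ) (conj : ∀ x, Rf u (φ x) = φ (Rf v x))
    {G : Set ℂ} {ν : ℂ → ℂ} (hGb : ∀ z ∈ G, (pol u.2).eval z ≠ 0) (hν : Measurable ν) (hν1 : ∀ z ∈ G, ‖ν z‖ = 1)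
    (hνi : ∀ z ∈ G, ν (gg (pol u.1) (pol u.2) z) * (starRingEnd ℂ) (dg (pol u.1) (pol u.2) z) =
      ν z * dg (pol u.1) (pol u.2) z) :
    ∃ ν' : ℂ → ℂ, LFd (Rf v) {x | ∃ z ∈ G, φ x = (z : OnePoint ℂ)} ν' := by
  obtain ⟨a, b, c, e, hD, h1, h2⟩ := mb_plane hφ
  obtain ⟨D, hDe⟩ : ∃ D, D = a * e - b * c := ⟨_, rfl⟩
  rw [← hDe] at hD
  obtain ⟨m, hm⟩ : ∃ m : ℂ → ℂ, m = fun t => (a * t + b) / (c * t + e) := ⟨_, rfl⟩
  obtain ⟨m', hm'⟩ : ∃ m' : ℂ → ℂ, m' = fun t => D / (c * t + e) ^ 2 := ⟨_, rfl⟩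
  have hmv : ∀ t : ℂ, c * t + e ≠ 0 → φ (t : OnePoint ℂ) = ((m t : ℂ) : OnePoint ℂ) := by
    intro t ht
    rw [h1 t ht, hm]
  have hfin : ∀ t s : ℂ, φ (t : OnePoint ℂ) = (s : OnePoint ℂ) → c * t + e ≠ 0 ∧ m t = s := by
    intro t s hts
    have h3 : c * t + e ≠ 0 := by
      intro h0
      rw [h2 t h0] at hts
      exact OnePoint.infty_ne_coe s hts
    refine ⟨h3, ?_⟩
    rw [hmv t h3] at hts
    exact OnePoint.coe_injective hts
  have hmd : ∀ t : ℂ, c * t + e ≠ 0 → HasDerivAt m (m' t) t := by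
    intro t ht
    rw [hm, hm']
    have h3 : HasDerivAt (fun t : ℂ => a * t + b) a t := by
      have h4 := ((hasDerivAt_id t).const_mul a).add_const b
      rwa [mul_one] at h4
    have h5 : HasDerivAt (fun t : ℂ => c * t + e) c t := by
      have h4 := ((hasDerivAt_id t).const_mul c).add_const e
      rwa [mul_one] at h4
    have h6 := h3.div h5 ht
    have h7 : (a * (c * t + e) - (a * t + b) * c) / (c * t + e) ^ 2 = D / (c * t + e) ^ 2 := by
      rw [hDe]
      congr 1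
      ring
    show HasDerivAt (fun t => (a * t + b) / (c * t + e)) (D / (c * t + e) ^ 2) t
    rw [← h7]
    exact h6
  have hm'0 : ∀ t : ℂ, c * t + e ≠ 0 → m' t ≠ 0 := by
    intro t ht
    rw [hm']
    exact div_ne_zero hD (pow_ne_zero 2 ht)
  have hmm : Measurable m := by
    rw [hm]
    fun_prop
  have hmm' : Measurable m' := by
    rw [hm']
    fun_prop
  refine ⟨fun t => ν (m t) * ((starRingEnd ℂ) (m' t) / m' t), ?_, ?_, ?_⟩
  · exact (hν.comp hmm).mul ((Complex.continuous_conj.measurable.comp hmm').div hmm')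
  · rintro z ⟨ζ, hζ, hzζ⟩
    obtain ⟨h3, h4⟩ := hfin z ζ hzζ
    show ‖ν (m z) * ((starRingEnd ℂ) (m' z) / m' z)‖ = 1
    rw [h4, norm_mul, hν1 ζ hζ, norm_div, RCLike.norm_conj, div_self (norm_ne_zero_iff.2 (hm'0 z h3)), one_mul]
  · rintro z w ⟨ζ, hζ, hzζ⟩ hzw
    obtain ⟨h3, h4⟩ := hfin z ζ hzζ
    have hbz := rf_ne hzw
    have hw : gg (pol v.1) (pol v.2) z = w := by
      rw [rf_gg hbz] at hzw
      exact OnePoint.coe_injective hzw
    have hbζ := hGb ζ hζ
    have h5 : φ (w : OnePoint ℂ) = ((gg (pol u.1) (pol u.2) ζ : ℂ) : OnePoint ℂ) := by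
      rw [← hzw, ← conj, hzζ, rf_gg hbζ]
    obtain ⟨h6, h7⟩ := hfin w _ h5
    -- the derivatives
    have hE : (fun t => m (gg (pol v.1) (pol v.2) t)) =ᶠ[𝓝 z] fun t => gg (pol u.1) (pol u.2) (m t) := by
      have e1 : ∀ᶠ t in 𝓝 z, (pol v.2).eval t ≠ 0 := (pol v.2).continuous.continuousAt.eventually_ne hbz
      have e2 : ∀ᶠ t in 𝓝 z, c * t + e ≠ 0 :=
        (by fun_prop : Continuous fun t : ℂ => c * t + e).continuousAt.eventually_ne h3
      have e3 : ∀ᶠ t in 𝓝 z, c * gg (pol v.1) (pol v.2) t + e ≠ 0 := by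
        have h8 : ContinuousAt (fun t : ℂ => c * gg (pol v.1) (pol v.2) t + e) z :=
          ((hasDerivAt_gg hbz).continuousAt.const_mul c).add_const e
        refine h8.eventually_ne ?_
        show c * gg (pol v.1) (pol v.2) z + e ≠ 0
        rw [hw]
        exact h6
      have e4 : ∀ᶠ t in 𝓝 z, (pol u.2).eval (m t) ≠ 0 := by
        have h8 : ContinuousAt (fun t : ℂ => (pol u.2).eval (m t)) z :=
          ContinuousAt.comp (f := m) (g := fun t => (pol u.2).eval t) (pol u.2).continuous.continuousAt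
            (hmd z h3).continuousAt
        refine h8.eventually_ne ?_
        show (pol u.2).eval (m z) ≠ 0
        rw [h4]
        exact hbζ
      filter_upwards [e1, e2, e3, e4] with t t1 t2 t3 t4
      apply OnePoint.coe_injective
      rw [← hmv _ t3, ← rf_gg t1, ← conj, hmv t t2, rf_gg t4]
    have hL : HasDerivAt (fun t => m (gg (pol v.1) (pol v.2) t)) (m' w * dg (pol v.1) (pol v.2) z) z := by
      have h8 : HasDerivAt m (m' w) (gg (pol v.1) (pol v.2) z) := by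
        rw [hw]
        exact hmd w h6
      exact h8.comp z (hasDerivAt_gg hbz)
    have hR : HasDerivAt (fun t => gg (pol u.1) (pol u.2) (m t)) (dg (pol u.1) (pol u.2) ζ * m' z) z := by
      have h8 : HasDerivAt (gg (pol u.1) (pol u.2)) (dg (pol u.1) (pol u.2) ζ) (m z) := by
        rw [h4]
        exact hasDerivAt_gg hbζ
      exact h8.comp z (hmd z h3)
    have hq : m' w * dg (pol v.1) (pol v.2) z = dg (pol u.1) (pol u.2) ζ * m' z :=
      hL.unique (hR.congr_of_eventuallyEq hE)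
    have hA := hm'0 z h3
    have hB := hm'0 w h6
    have hr := hνi ζ hζ
    rw [der_rf hbz]
    show ν (m w) * ((starRingEnd ℂ) (m' w) / m' w) * (starRingEnd ℂ) (dg (pol v.1) (pol v.2) z) =
      ν (m z) * ((starRingEnd ℂ) (m' z) / m' z) * dg (pol v.1) (pol v.2) z
    rw [h7, h4]
    have hqc := congrArg (starRingEnd ℂ) hq
    rw [map_mul, map_mul] at hqc
    rw [mul_div_assoc', mul_div_assoc', div_mul_eq_mul_div, div_mul_eq_mul_div, div_eq_div_iff hB hA]
    linear_combination (ν (gg (pol u.1) (pol u.2) ζ) * m' z) * hqc + ((starRingEnd ℂ) (m' z) * m' z) * hr -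
      (ν ζ * (starRingEnd ℂ) (m' z)) * hq

end Pool.Agent.H91.ATT
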