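import Pool.Agent.H15.LOC.Pln
import Pool.Agent.H15.LOC.Tra
import Pool.Agent.H91.ATT.Cl
import Pool.Agent.H91.ATT.Lf

/-!
# ATT+ with the line field: from the chart to the sphere

`ATL f c`: there are a completely invariant set `G` in the Julia set, of positive area, an invariant line field on `G`, and all points of `G` visit every neighbourhood of the limit set of `c` with upper density one. `at_of_x`: `at_of` (H15/LOC/Fam) with the set in the conclusion. `atl_of`: from a Moebius chart.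
-/

set_option autoImplicit false

open Filter Topology Polynomial Metric Set MeasureTheory

namespace Pool.Agent.H91.ATT

open Pool.Agent.H44.Fatou (rat rat_continuous rat_coe rat_coe_of_ne pt crit_coe)
open Pool.Agent.H56.HR (FS EqAt)
open Pool.Agent.H32.BT Pool.Agent.H79.Eul Pool.Agent.H79.Par
open Pool.Agent.H35.EX Pool.Agent.H44.RR Pool.Agent.H44.RC Pool.Agent.H47.RJ
open Pool.Agent.H47.NN Pool.Agent.H44.ND Pool.Agent.H79.ES Pool.Agent.H44.TH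
open Pool.Agent.H64.NC Pool.Agent.H61.TT Pool.Agent.H57.CP Pool.Agent.H3.NC
open Pool.Agent.H57.CF Pool.Agent.H47.NM
open Pool.Agent.H15.LOC (UDn Lim udn_lim tr_m tr_v)

/-- the preimage in the sphere of a set of the plane -/
def Pb (φ : OnePoint ℂ ≃ₜ OnePoint ℂ) (G : Set ℂ) : Set (OnePoint ℂ) := {x | ∃ z ∈ G, φ x = (z : OnePoint ℂ)}

/-- a completely invariant set of positive area in the Julia set with an invariant line field, all whose points visit every neighbourhood of the limit set of `c` with upper density one -/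
def ATL (f : OnePoint ℂ → OnePoint ℂ) (c : OnePoint ℂ) : Prop := ∃ (G : Set (OnePoint ℂ)) (ν : ℂ → ℂ), G ⊆ JS f ∧
  (∀ x, f x ∈ G ↔ x ∈ G) ∧ MeasurableSet {z : ℂ | (z : OnePoint ℂ) ∈ G} ∧ 0 < volume {z : ℂ | (z : OnePoint ℂ) ∈ G} ∧
    LFd f G ν ∧ ∀ x ∈ G, UDn f (Lim f c) x

theorem at_of_x {d : ℕ} {v u : E d} {φ : OnePoint ℂ ≃ₜ OnePoint ℂ} {K : ℝ} (hcop : IsCoprime (pol v.1) (pol v.2))
    (bil : ∀ x y, chord (φ x) (φ y) ≤ K * chord x y ∧ chord x y ≤ K * chord (φ x) (φ y))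
    (conj : ∀ x, Rf u (φ x) = φ (Rf v x)) {c : OnePoint ℂ} {c1 : ℂ} (hc : φ c = (c1 : OnePoint ℂ)) {M G : Set ℂ}
    (hMb : ∀ x ∈ M, (pol u.2).eval x ≠ 0)
    (hMm : ∀ L : Set ℂ, IsClosed L → c1 ∈ L → (∀ x ∈ L, x ∈ M → Pool.Agent.H61.TT.gg (pol u.1) (pol u.2) x ∈ L) → M ⊆ L)
    (hGm : MeasurableSet G) (hGp : 0 < volume G) (hGJ : ∀ z ∈ G, (z : OnePoint ℂ) ∈ JS (Rf u)) (hGb : ∀ z ∈ G, (pol u.2).eval z ≠ 0)
    (hGi : ∀ z : ℂ, (pol u.2).eval z ≠ 0 → (Pool.Agent.H61.TT.gg (pol u.1) (pol u.2) z ∈ G ↔ z ∈ G))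
    (hinf : ∀ z ∈ G, Rf u OnePoint.infty ≠ (z : OnePoint ℂ))
    (hGv : ∀ z ∈ G, ∀ N' : Set ℂ, IsOpen N' → M ⊆ N' → ∀ ε : ℝ, 0 < ε → ∀ n0 : ℕ, ∃ n ≥ n0,
        (1 - ε) * n ≤ ({k | k < n ∧ (Pool.Agent.H61.TT.gg (pol u.1) (pol u.2))^[k] z ∈ N'} : Set ℕ).ncard) :
    Pb φ G ⊆ JS (Rf v) ∧ (∀ x, Rf v x ∈ Pb φ G ↔ x ∈ Pb φ G) ∧ MeasurableSet {z : ℂ | (z : OnePoint ℂ) ∈ Pb φ G} ∧
      0 < volume {z : ℂ | (z : OnePoint ℂ) ∈ Pb φ G} ∧ ∀ x ∈ Pb φ G, UDn (Rf v) (Lim (Rf v) c) x := by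
  have hcont : Continuous (Rf v) := rat_continuous hcop
  have hcu : Continuous (Rf u) := by
    have h1 : Rf u = fun y => φ (Rf v (φ.symm y)) := by
      funext y
      rw [← conj, φ.apply_symm_apply]
    rw [h1]
    exact φ.continuous.comp (hcont.comp φ.symm.continuous)
  have hrat : ∀ z : ℂ, (pol u.2).eval z ≠ 0 → Rf u (z : OnePoint ℂ) =
      ((Pool.Agent.H61.TT.gg (pol u.1) (pol u.2) z : ℂ) : OnePoint ℂ) := fun z hz => rat_coe_of_ne hz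
  have hpole : ∀ z : ℂ, (pol u.2).eval z = 0 → Rf u (z : OnePoint ℂ) = OnePoint.infty := by
    intro z hz
    show rat (pol u.1) (pol u.2) _ = _
    rw [rat_coe]
    unfold pt
    rw [if_pos hz]
  have hit : ∀ z ∈ G, ∀ n : ℕ, (Pool.Agent.H61.TT.gg (pol u.1) (pol u.2))^[n] z ∈ G ∧
      (Rf u)^[n] (z : OnePoint ℂ) = (((Pool.Agent.H61.TT.gg (pol u.1) (pol u.2))^[n] z : ℂ) : OnePoint ℂ) := by
    intro z hz n
    induction n with
    | zero => exact ⟨hz, rfl⟩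
    | succ n ih =>
      rw [Function.iterate_succ_apply', Function.iterate_succ_apply']
      refine ⟨(hGi _ (hGb _ ih.1)).2 ih.1, ?_⟩
      rw [ih.2, hrat _ (hGb _ ih.1)]
  have hconjn : ∀ (n : ℕ) (x : OnePoint ℂ), (Rf u)^[n] (φ x) = φ ((Rf v)^[n] x) := by
    intro n
    induction n with
    | zero => exact fun _ => rfl
    | succ n ih =>
      intro x
      rw [Function.iterate_succ_apply, conj, ih, Function.iterate_succ_apply]
  obtain ⟨G', hG'⟩ : ∃ G' : Set (OnePoint ℂ), G' = Pb φ G := ⟨_, rfl⟩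
  rw [← hG']
  have hmem : ∀ x, x ∈ G' ↔ ∃ z ∈ G, φ x = (z : OnePoint ℂ) := fun x => by rw [hG']; rfl
  have hpre : {z : ℂ | (z : OnePoint ℂ) ∈ G'} = {z : ℂ | ∃ w ∈ G, φ (z : OnePoint ℂ) = (w : OnePoint ℂ)} := by
    ext z
    exact hmem _
  refine ⟨?_, ?_, ?_, ?_, ?_⟩
  · intro x hx
    obtain ⟨z, hz, hxz⟩ := (hmem x).1 hx
    rw [← js_conj φ (fun y => (conj y).symm) x, hxz]
    exact hGJ z hz
  · intro x
    rw [hmem, hmem, ← conj]
    obtain ⟨y, hy⟩ : ∃ y, y = φ x := ⟨_, rfl⟩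
    rw [← hy]
    constructor
    · rintro ⟨w, hw, h1⟩
      induction y using OnePoint.rec with
      | infty => exact absurd h1 (hinf w hw)
      | coe z =>
        by_cases hb : (pol u.2).eval z = 0
        · rw [hpole z hb] at h1
          exact absurd h1.symm (OnePoint.coe_ne_infty w)
        · rw [hrat z hb] at h1
          have h2 := OnePoint.coe_injective h1
          exact ⟨z, (hGi z hb).1 (h2 ▸ hw), rfl⟩
    · rintro ⟨z, hz, rfl⟩
      exact ⟨_, (hGi z (hGb z hz)).2 hz, hrat z (hGb z hz)⟩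
  · rw [hpre]
    exact tr_m (φ.continuous.comp OnePoint.continuous_coe) hGm
  · rw [hpre]
    exact tr_v bil hGp
  · intro x hx
    obtain ⟨z, hz, hxz⟩ := (hmem x).1 hx
    refine udn_lim hcont ?_
    intro O hO hLO ε hε n0
    obtain ⟨N', hN'⟩ : ∃ N' : Set ℂ, N' = {w : ℂ | φ.symm (w : OnePoint ℂ) ∈ O} := ⟨_, rfl⟩
    have hN'o : IsOpen N' := by
      rw [hN']
      exact hO.preimage (φ.symm.continuous.comp OnePoint.continuous_coe)
    have hcl : IsClosed {w : ℂ | φ.symm (w : OnePoint ℂ) ∈ closure (range fun n : ℕ => (Rf v)^[n] c)} :=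
      isClosed_closure.preimage (φ.symm.continuous.comp OnePoint.continuous_coe)
    have hMN : M ⊆ N' := by
      intro w hw
      have h1 := hMm _ hcl (by
        show φ.symm (c1 : OnePoint ℂ) ∈ closure (range fun n : ℕ => (Rf v)^[n] c)
        rw [← hc, φ.symm_apply_apply]
        exact subset_closure ⟨0, rfl⟩) (by
        intro w hw hwM
        show φ.symm ((Pool.Agent.H61.TT.gg (pol u.1) (pol u.2) w : ℂ) : OnePoint ℂ) ∈ closure (range fun n : ℕ => (Rf v)^[n] c)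
        rw [← hrat w (hMb w hwM)]
        have h2 : φ.symm (Rf u (w : OnePoint ℂ)) = Rf v (φ.symm (w : OnePoint ℂ)) := by
          rw [φ.symm_apply_eq, ← conj, φ.apply_symm_apply]
        rw [h2]
        have h3 : φ.symm (w : OnePoint ℂ) ∈ closure (range fun n : ℕ => (Rf v)^[n] c) := hw
        refine closure_mono ?_ (image_closure_subset_closure_image hcont ⟨_, h3, rfl⟩)
        rintro _ ⟨_, ⟨n, rfl⟩, rfl⟩
        exact ⟨n + 1, Function.iterate_succ_apply' _ _ _⟩) hw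
      rw [hN']
      exact hLO h1
    obtain ⟨n, hn, h1⟩ := hGv z hz N' hN'o hMN ε hε n0
    refine ⟨n, hn, h1.trans (le_of_eq ?_)⟩
    have h2 : ({k | k < n ∧ (Pool.Agent.H61.TT.gg (pol u.1) (pol u.2))^[k] z ∈ N'} : Set ℕ) = {k | k < n ∧ (Rf v)^[k] x ∈ O} := by
      ext k
      refine and_congr_right fun _ => ?_
      rw [hN']
      show φ.symm (((Pool.Agent.H61.TT.gg (pol u.1) (pol u.2))^[k] z : ℂ) : OnePoint ℂ) ∈ O ↔ _
      rw [← (hit z hz k).2, ← hxz, hconjn, φ.symm_apply_apply]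
    rw [h2]

theorem atl_of {d : ℕ} {v u : E d} {φ : OnePoint ℂ ≃ₜ OnePoint ℂ} {K : ℝ} (hcop : IsCoprime (pol v.1) (pol v.2))
    (hu : RatD d (pol u.1) (pol u.2)) (hφ : Mb φ)
    (bil : ∀ x y, chord (φ x) (φ y) ≤ K * chord x y ∧ chord x y ≤ K * chord (φ x) (φ y))
    (conj : ∀ x, Rf u (φ x) = φ (Rf v x)) {c : OnePoint ℂ} {c1 : ℂ} (hc : φ c = (c1 : OnePoint ℂ)) {M G : Set ℂ}
    {μ : ℂ → ℂ} (hMb : ∀ x ∈ M, (pol u.2).eval x ≠ 0)
    (hMm : ∀ L : Set ℂ, IsClosed L → c1 ∈ L → (∀ x ∈ L, x ∈ M → Pool.Agent.H61.TT.gg (pol u.1) (pol u.2) x ∈ L) → M ⊆ L)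
    (hGm : MeasurableSet G) (hGJ : ∀ z ∈ G, (z : OnePoint ℂ) ∈ JS (Rf u)) (hGb : ∀ z ∈ G, (pol u.2).eval z ≠ 0)
    (hGi : ∀ z : ℂ, (pol u.2).eval z ≠ 0 → (Pool.Agent.H61.TT.gg (pol u.1) (pol u.2) z ∈ G ↔ z ∈ G))
    (hGv : ∀ z ∈ G, ∀ N' : Set ℂ, IsOpen N' → M ⊆ N' → ∀ ε : ℝ, 0 < ε → ∀ n0 : ℕ, ∃ n ≥ n0,
        (1 - ε) * n ≤ ({k | k < n ∧ (Pool.Agent.H61.TT.gg (pol u.1) (pol u.2))^[k] z ∈ N'} : Set ℕ).ncard)
    (hμm : Measurable μ) (hμ0 : ∀ z, z ∉ G → μ z = 0)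
    (hμi : ∀ᵐ z : ℂ, (pol u.2).eval z ≠ 0 → μ (Pool.Agent.H61.TT.gg (pol u.1) (pol u.2) z) *
        (starRingEnd ℂ) (dg (pol u.1) (pol u.2) z) = μ z * dg (pol u.1) (pol u.2) z)
    (hμp : 0 < volume {z | μ z ≠ 0}) : ATL (Rf v) c := by
  have hS : volume {z : ℂ | Rf u OnePoint.infty = (z : OnePoint ℂ)} = 0 := by
    refine Set.Subsingleton.measure_zero (fun z hz w hw => ?_) _
    exact OnePoint.coe_injective (Eq.trans (Eq.symm hz) hw)
  obtain ⟨G', ν, hsub, hnS, hm, hp, hi, hν, hν1, hνi⟩ := cl hu hGm hGb hGi hμm hμ0 hμi hμp hS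
  obtain ⟨h1, h2, h3, h4, h5⟩ := at_of_x hcop bil conj hc hMb hMm hm hp (fun z hz => hGJ z (hsub hz))
    (fun z hz => hGb z (hsub hz)) hi (fun z hz => hnS z hz) (fun z hz => hGv z (hsub hz))
  obtain ⟨ν', h6⟩ := lf_tr hφ conj (fun z hz => hGb z (hsub hz)) hν hν1 hνi
  exact ⟨Pb φ G', ν', h1, h2, h3, h4, h6, h5⟩

end Pool.Agent.H91.ATT
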