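import Pool.Agent.H91.ATT.Mb
import Pool.Agent.H47.PS.CHD

/-!
# ATT+: the charts of H47/PS/CHD are Moebius maps

Copies of `ch_mob`, `ch_fin`, `ch_three` with `Mb φ` (from H64/BE/MBD).
-/

set_option autoImplicit false

open Filter Topology Polynomial Metric Set

namespace Pool.Agent.H91.ATT

open Pool.Agent.H44.Fatou Pool.Agent.H32.BT Pool.Agent.H79.Eul Pool.Agent.H79.Par
open Pool.Agent.H35.EX Pool.Agent.H44.RR Pool.Agent.H56.HR Pool.Agent.H44.RC Pool.Agent.H47.RJ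
open Pool.Agent.H47.NM Pool.Agent.H47.NN Pool.Agent.H44.ND Pool.Agent.H79.ES Pool.Agent.H44.RG
open Pool.Agent.H44.CP Pool.Agent.H47.PS

variable {d : ℕ}

theorem chb_comp {L1 G1 L2 G2 : E d → E d} {φ1 φ2 : OnePoint ℂ ≃ₜ OnePoint ℂ} {K1 K2 : ℝ}
    (h1 : Ch d L1 G1 φ1 K1 ∧ Mb φ1) (h2 : Ch d L2 G2 φ2 K2 ∧ Mb φ2) :
    Ch d (fun v => L2 (L1 v)) (fun v => G1 (G2 v)) (φ1.trans φ2) (K1 * K2) ∧ Mb (φ1.trans φ2) :=
  ⟨ch_comp h1.1 h2.1, mb_comp h1.2 h2.2⟩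

theorem ch_mob_b (hd : 2 ≤ d) (s : ℂ) : ∃ (G : E d → E d) (φ : OnePoint ℂ ≃ₜ OnePoint ℂ) (K : ℝ),
    (Ch d (Lin s) G φ K ∧ Mb φ) ∧ (∀ z : ℂ, z ≠ s → φ (z : OnePoint ℂ) = (((z - s)⁻¹ : ℂ) : OnePoint ℂ)) ∧
      φ (s : OnePoint ℂ) = OnePoint.infty ∧ φ OnePoint.infty = ((0 : ℂ) : OnePoint ℂ) := by
  obtain ⟨G, φ, K, h, h1, h2, h3⟩ := ch_mob (d := d) hd s
  exact ⟨G, φ, K, ⟨h, mb_mob h1 h2 h3⟩, h1, h2, h3⟩

theorem ch_fin_b (hd : 2 ≤ d) (p1 p2 p3 : OnePoint ℂ) : ∃ (L G : E d → E d)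
    (φ : OnePoint ℂ ≃ₜ OnePoint ℂ) (K : ℝ), (Ch d L G φ K ∧ Mb φ) ∧ Comp d L ∧
      (∃ z : ℂ, φ p1 = (z : OnePoint ℂ)) ∧ (∃ z : ℂ, φ p2 = (z : OnePoint ℂ)) ∧
      ∃ z : ℂ, φ p3 = (z : OnePoint ℂ) := by
  have hfin : {z : ℂ | (z : OnePoint ℂ) ∈ ({p1, p2, p3} : Set (OnePoint ℂ))}.Finite :=
    Set.Finite.preimage OnePoint.coe_injective.injOn (by simp)
  obtain ⟨s, hs⟩ := hfin.infinite_compl.nonempty
  obtain ⟨G, φ, K, hch, -, hφs, -⟩ := ch_mob_b hd s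
  have key : ∀ p ∈ ({p1, p2, p3} : Set (OnePoint ℂ)), ∃ z : ℂ, φ p = (z : OnePoint ℂ) := by
    intro p hp
    have h1 : φ p ≠ OnePoint.infty := by
      intro h
      rw [← hφs] at h
      have h2 := φ.injective h
      apply hs
      show (s : OnePoint ℂ) ∈ ({p1, p2, p3} : Set (OnePoint ℂ))
      rw [← h2]
      exact hp
    obtain ⟨z, hz⟩ := OnePoint.ne_infty_iff_exists.1 h1
    exact ⟨z, hz.symm⟩
  exact ⟨Lin s, G, φ, K, hch, Comp.one s, key _ (by simp), key _ (by simp), key _ (by simp)⟩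

/-- three distinct points go to `0, 1, ∞` -/
theorem ch_three_b (hd : 2 ≤ d) {p1 p2 p3 : OnePoint ℂ} (h12 : p1 ≠ p2) (h13 : p1 ≠ p3)
    (h23 : p2 ≠ p3) : ∃ (L G : E d → E d) (φ : OnePoint ℂ ≃ₜ OnePoint ℂ) (K : ℝ), (Ch d L G φ K ∧ Mb φ) ∧
      Comp d L ∧ φ p1 = ((0 : ℂ) : OnePoint ℂ) ∧ φ p2 = ((1 : ℂ) : OnePoint ℂ) ∧
      φ p3 = OnePoint.infty := by
  obtain ⟨L0, G0, φ0, K0, c0, m0, ⟨z1, hz1⟩, ⟨z2, hz2⟩, ⟨z3, hz3⟩⟩ := ch_fin_b hd p1 p2 p3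
  have n12 : z1 ≠ z2 := by
    rintro rfl
    exact h12 (φ0.injective (hz1.trans hz2.symm))
  have n13 : z1 ≠ z3 := by
    rintro rfl
    exact h13 (φ0.injective (hz1.trans hz3.symm))
  have n23 : z2 ≠ z3 := by
    rintro rfl
    exact h23 (φ0.injective (hz2.trans hz3.symm))
  -- `p3` goes to infinity
  obtain ⟨G1, φ1, K1, c1, f1, g1, i1⟩ := ch_mob_b (d := d) hd z3
  obtain ⟨a, ha⟩ : ∃ a, a = (z1 - z3)⁻¹ := ⟨_, rfl⟩
  obtain ⟨b, hb⟩ : ∃ b, b = (z2 - z3)⁻¹ := ⟨_, rfl⟩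
  have hab : a ≠ b := by
    rw [ha, hb]
    intro h
    have h1 := inv_injective h
    exact n12 (sub_left_injective h1)
  obtain ⟨r, hr⟩ : ∃ r : ℂ, r ^ 2 = a - b := IsAlgClosed.exists_pow_nat_eq _ two_pos
  have hr0 : r ≠ 0 := by
    rintro rfl
    rw [zero_pow two_ne_zero] at hr
    exact hab (sub_eq_zero.1 hr.symm)
  have e1 : φ1 (φ0 p1) = ((a : ℂ) : OnePoint ℂ) := by rw [hz1, f1 _ n13, ha]
  have e2 : φ1 (φ0 p2) = ((b : ℂ) : OnePoint ℂ) := by rw [hz2, f1 _ n23, hb]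
  have e3 : φ1 (φ0 p3) = OnePoint.infty := by rw [hz3, g1]
  -- second map, `s = a - r`
  obtain ⟨G2, φ2, K2, c2, f2, g2, i2⟩ := ch_mob_b (d := d) hd (a - r)
  have e1' : φ2 (φ1 (φ0 p1)) = ((r⁻¹ : ℂ) : OnePoint ℂ) := by
    rw [e1, f2 a (by
      intro h
      exact hr0 (by linear_combination h))]
    congr 2
    ring
  have e3' : φ2 (φ1 (φ0 p3)) = ((0 : ℂ) : OnePoint ℂ) := by rw [e3, i2]
  -- third map, `t = 1 / r`
  obtain ⟨G3, φ3, K3, c3, f3, g3, i3⟩ := ch_mob_b (d := d) hd r⁻¹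
  have e1'' : φ3 (φ2 (φ1 (φ0 p1))) = OnePoint.infty := by rw [e1', g3]
  have e3'' : φ3 (φ2 (φ1 (φ0 p3))) = ((-r : ℂ) : OnePoint ℂ) := by
    rw [e3', f3 0 (inv_ne_zero hr0).symm]
    congr 1
    rw [zero_sub, inv_neg, inv_inv]
  -- the image of `b` under the second and third map
  have e2'' : φ3 (φ2 (φ1 (φ0 p2))) = ((1 - r : ℂ) : OnePoint ℂ) := by
    by_cases hbs : b = a - r
    · -- then `r = 1`
      have h1 : r = 1 := by
        have h2 : r * (r - 1) = 0 := by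
          rw [hbs] at hr
          linear_combination hr
        rcases mul_eq_zero.1 h2 with h | h
        · exact absurd h hr0
        · exact sub_eq_zero.1 h
      rw [e2, hbs, g2, i3, h1, sub_self]
    · have h1 : b - (a - r) ≠ 0 := sub_ne_zero.2 hbs
      rw [e2, f2 b hbs]
      have h2 : (b - (a - r))⁻¹ ≠ r⁻¹ := by
        intro h
        have h3 := inv_injective h
        exact hab (by linear_combination -h3)
      rw [f3 _ h2]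
      congr 1
      have h4 : b - (a - r) = r - r ^ 2 := by rw [hr]; ring
      have h5 : r - r ^ 2 ≠ 0 := by rw [← h4]; exact h1
      have h6 : (1 : ℂ) - r ≠ 0 := by
        intro h
        apply h5
        have h7 : r = 1 := (sub_eq_zero.1 h).symm
        rw [h7]
        ring
      rw [h4]
      have h8 : (r - r ^ 2)⁻¹ - r⁻¹ = (1 - r)⁻¹ := by
        have h9 : r - r ^ 2 = r * (1 - r) := by ring
        rw [h9]
        field_simp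
        ring
      rw [h8, inv_inv]
  -- fourth map, `u = - r`
  obtain ⟨G4, φ4, K4, c4, f4, g4, i4⟩ := ch_mob_b (d := d) hd (-r)
  refine ⟨_, _, _, _, chb_comp (chb_comp (chb_comp (chb_comp c0 c1) c2) c3) c4,
    Comp.step _ _ (Comp.step _ _ (Comp.step _ _ (Comp.step _ _ m0))), ?_, ?_, ?_⟩
  · show φ4 (φ3 (φ2 (φ1 (φ0 p1)))) = _
    rw [e1'', i4]
  · show φ4 (φ3 (φ2 (φ1 (φ0 p2)))) = _
    rw [e2'', f4 _ (by
      intro h
      have h1 : (1 : ℂ) = 0 := by linear_combination h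
      exact one_ne_zero h1)]
    congr 1
    have h1 : (1 : ℂ) - r - -r = 1 := by ring
    rw [h1, inv_one]
  · show φ4 (φ3 (φ2 (φ1 (φ0 p3)))) = _
    rw [e3'', g4]

end Pool.Agent.H91.ATT
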