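import Pool.Agent.H27.BR.CH
import Pool.Agent.H64.NC.DCH
import Pool.Agent.H64.PF.ONE
import Pool.Agent.H91.ATT.Chb

/-!
# ATT+: charts `CD` which are Moebius maps

`red_gen_b`: `red_gen` (H57/CF/ALF) with `Mb φ`. `cdb`: all families, Julia set not the sphere (from H31/UDC/Cdx).
-/

set_option autoImplicit false

open Filter Topology Polynomial Metric Set MeasureTheory

namespace Pool.Agent.H91.ATT

open Pool.Agent.H44.Fatou (rat rat_continuous ev wv crit_coe)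
open Pool.Agent.H56.HR (FS EqAt)
open Pool.Agent.H32.BT Pool.Agent.H79.Eul Pool.Agent.H79.Par Pool.Agent.H47.NN Pool.Agent.H44.ND
open Pool.Agent.H79.ES Pool.Agent.H35.EX Pool.Agent.H44.RC Pool.Agent.H47.RJ Pool.Agent.H84.BR
open Pool.Agent.H61.TT Pool.Agent.H57.CP Pool.Agent.H3.NC Pool.Agent.H57.CF Pool.Agent.H47.NM Pool.Agent.H47.PS
open Pool.Agent.H64.NC Pool.Agent.H83.UP Pool.Agent.H27.BR

variable {d : ℕ}

/-- a map of the family is after an inclusion and a translation generic -/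
theorem red_gen_b {k : ℕ} (hd : 2 ≤ d) (hk : 2 ≤ k) (hkd : k ≤ d) {x : Em d k} (hcop : IsCoprime (pol x.1) (pol x.2))
    (hdeg : max (pol x.1).natDegree (pol x.2).natDegree = d) :
    ∃ (l : ℕ) (z : Em d l) (φ : OnePoint ℂ ≃ₜ OnePoint ℂ) (K : ℝ), 2 ≤ l ∧ l ≤ d ∧ GenM d l (pol z.1) (pol z.2) ∧
      Mb φ ∧ (∀ x y, chord (φ x) (φ y) ≤ K * chord x y ∧ chord x y ≤ K * chord (φ x) (φ y)) ∧
      (∀ y, Rf (ex d l z) (φ y) = φ (Rf (ex d k x) y)) ∧ (UpF d l z → UpF d k x) := by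
  obtain ⟨l, y, hkl, hld, hn, rfl⟩ := em_sur hkd x
  have hl2 : 2 ≤ l := by omega
  rw [em_pol hkl y] at hcop hdeg hn
  have hcop' : IsCoprime (pol y.1) (pol y.2) := hcop
  have hdeg' : max (pol y.1).natDegree (pol y.2).natDegree = d := hdeg
  have ha := fam_a hl2 hld hdeg'
  have hQ0 : pol y.2 ≠ 0 := den_ne_zero hcop' (by rw [hdeg']; omega)
  have hR0 : pol y.1 - X * pol y.2 ≠ 0 := by
    intro h
    have h1 := sub_eq_zero.1 h
    have h2 : (X * pol y.2).natDegree ≤ d - l + 1 := by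
      refine natDegree_mul_le.trans ?_
      rw [natDegree_X]
      have := pol_deg y.2
      omega
    rw [← h1, ha] at h2
    omega
  obtain ⟨s, hs⟩ : ∃ s : ℂ, (pol y.2 * (pol y.1 - X * pol y.2)).eval s ≠ 0 := by
    by_contra hno
    push Not at hno
    exact mul_ne_zero hQ0 hR0 (Polynomial.funext fun r => by rw [hno r, eval_zero])
  rw [eval_mul, eval_sub, eval_mul, eval_X] at hs
  have hs2 := left_ne_zero_of_mul hs
  have hs1 := right_ne_zero_of_mul hs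
  have hg : GenM d l (pol (Tr d l s y).1) (pol (Tr d l s y).2) := by
    refine ⟨tr_cop hcop', tr_dega hl2 hld hdeg', by rw [tr_degb, hn], ?_, ?_⟩
    · rw [pol_tr1, eval_sub, eval_mul, eval_C, eval_comp, eval_comp, eval_add, eval_X, eval_C, zero_add]
      exact hs1
    · rw [pol_tr2, eval_comp, eval_add, eval_X, eval_C, zero_add]
      exact hs2
  obtain ⟨φ, h1, hi1, K, hK⟩ := tr_homeo s
  have hm : Mb φ := mb_tr h1 hi1
  refine ⟨l, Tr d l s y, φ, K, hl2, hld, hg, hm, hK, ?_, ?_⟩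
  · rw [em_ex hkl]
    exact tr_conj hd hcop' hdeg' h1 hl2 hld
  · intro h
    exact em_up hkl (tr_up hd hl2 hld s hcop' hdeg' h)

theorem cdb_up {v : E d} (hd : 2 ≤ d) (hcop : IsCoprime (pol v.1) (pol v.2))
    (hdeg : max (pol v.1).natDegree (pol v.2).natDegree = d) (hup : ¬ Up v)
    (hF : (FS (Rf v)).Nonempty) :
    ∃ (u : E d) (φ : OnePoint ℂ ≃ₜ OnePoint ℂ) (K : ℝ) (T : Set (OnePoint ℂ)), CD v u φ K T (2 * d) ∧ Mb φ := by
  obtain ⟨x0, hx0⟩ := hF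
  obtain ⟨z, n, hs, -⟩ := Pool.Agent.H64.MJ.fs_att hd hcop hdeg hup hx0
  obtain ⟨p1, p2, h12, h1z, h2z⟩ : ∃ p1 p2 : OnePoint ℂ, p1 ≠ p2 ∧ p1 ≠ z ∧ p2 ≠ z := by
    have hinf : (({z} : Set (OnePoint ℂ))ᶜ).Infinite := (finite_singleton z).infinite_compl
    obtain ⟨p1, hp1⟩ := hinf.nonempty
    obtain ⟨p2, hp2⟩ := (hinf.sdiff (finite_singleton p1)).nonempty
    exact ⟨p1, p2, fun h => hp2.2 h.symm, hp1, hp2.1⟩
  obtain ⟨L, G, φ, K, ⟨hch, hmb⟩, -, -, -, fi⟩ := ch_three_b (d := d) hd h12 h1z h2z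
  obtain ⟨hcop1, hdeg1, hφ⟩ := hch.conj v hcop hdeg
  have hup1 : ¬ Up (L v) := fun h =>
    hup (up_chart hd hch.cG hch.invL hch.invR (fun v h3 h4 => (hch.conj v h3 h4).2.2) hcop hdeg h)
  have hs1 : IsSink (Rf (L v)) OnePoint.infty n := by
    rw [← fi]
    exact (isSink_conj φ hφ z n).2 hs
  obtain ⟨T, hT, hTi⟩ := trap_of_sink hcop1 (by rw [hdeg1]; exact hd) hs1
  have hGA : GA (L v) T :=
    ⟨hd, hcop1, hdeg1, fun p hp x m hcy hm => hup1 (Pool.Agent.H44.CP.neu_up hd hcop1 hdeg1 hp hcy hm),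
      fun x hx => Pool.Agent.H44.NR.att_in hd hcop1 hdeg1 hup1 hx,
      fun x hx => Pool.Agent.H64.MJ.fs_att hd hcop1 hdeg1 hup1 hx, hT, hTi⟩
  refine ⟨L v, φ, K, T, ⟨hch.bil, hφ, hGA, by omega, ?_, fun x hx => lagr ⟨hd, hcop1, hdeg1⟩ hx,
    fun η hη => mot_up hd hcop1 hdeg1 hup1 (hT.att _ (interior_subset hTi)) hη⟩, hmb⟩
  have h1 := Pool.Agent.H27.BR.ww_deg (pol (L v).1) (pol (L v).2) (m := d) (n := d) ((le_max_left _ _).trans hdeg1.le)
    ((le_max_right _ _).trans hdeg1.le)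
  omega

theorem cdb_upF {k : ℕ} (hd : 2 ≤ d) (hk : 2 ≤ k) (hkd : k ≤ d) {x : Em d k} (hcop : IsCoprime (pol x.1) (pol x.2))
    (hdeg : max (pol x.1).natDegree (pol x.2).natDegree = d) (hup : ¬ UpF d k x) :
    ∃ (D : ℕ) (u : E d) (φ : OnePoint ℂ ≃ₜ OnePoint ℂ) (K : ℝ) (T : Set (OnePoint ℂ)), CD (ex d k x) u φ K T D ∧ Mb φ := by
  obtain ⟨l, y, φ, K, hl, hld, hg, hmb, hK, hφ, hup'⟩ := red_gen_b hd hk hkd hcop hdeg
  have hupy : ¬ UpF d l y := fun h => hup (hup' h)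
  obtain ⟨T, hGA⟩ := ga_gen hd hl hld hg hupy
  have hbl : (pol (ex d l y).2).natDegree + l ≤ d := by
    rw [(fam_ex hl hld hg).hb]
    omega
  refine ⟨2 * d - l, ex d l y, φ, K, T, ⟨hK, hφ, hGA, by omega, ?_,
    fun x hx => Pool.Agent.H79.GP.lagn ⟨hd, hGA.cop, hGA.deg⟩ (by omega) hld hbl hx,
    fun η hη => mot_upF hd hl hld hg hupy hη⟩, hmb⟩
  have h1 := Pool.Agent.H27.BR.ww_deg (pol (ex d l y).1) (pol (ex d l y).2) (m := d) (n := d - l)
    ((le_max_left _ _).trans hGA.deg.le) (by omega)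
  omega

/-- all families -/
theorem cdb {m : ℕ} (hd : 2 ≤ d) (hm : m ≤ d) {x : Em d m} (hcop : IsCoprime (pol x.1) (pol x.2))
    (hdeg : max (pol x.1).natDegree (pol x.2).natDegree = d) (hup : ¬ UpF d m x) (hF : (FS (Rf (ex d m x))).Nonempty) :
    ∃ (D : ℕ) (u : E d) (φ : OnePoint ℂ ≃ₜ OnePoint ℂ) (K : ℝ) (T : Set (OnePoint ℂ)), CD (ex d m x) u φ K T D ∧ Mb φ := by
  have key : ¬ Up (ex d m x) → ∃ (D : ℕ) (u : E d) (φ : OnePoint ℂ ≃ₜ OnePoint ℂ) (K : ℝ) (T : Set (OnePoint ℂ)),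
      CD (ex d m x) u φ K T D ∧ Mb φ := by
    intro hup1
    obtain ⟨u, φ, K, T, h⟩ := cdb_up hd (ex_cop hcop) (ex_deg hdeg) hup1 hF
    exact ⟨_, u, φ, K, T, h⟩
  rcases Nat.lt_or_ge m 2 with h2 | h2
  · rcases Nat.lt_or_ge m 1 with h1 | h1
    · obtain rfl : m = 0 := by omega
      exact key fun h => hup (up_zero h)
    · obtain rfl : m = 1 := by omega
      exact key fun h => hup (Pool.Agent.H64.PF.up_one hd hcop hdeg h)
  · exact cdb_upF hd h2 hm hcop hdeg hup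

end Pool.Agent.H91.ATT
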