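import Pool.Agent.H15.LOC.Fam
import Pool.Agent.H91.ATT.Atl
import Pool.Agent.H91.ATT.Cdb

/-!
# ATT+ with the line field, Julia set not the sphere, all families

`atl_fam_p`: from `att_cd` (H15/LOC/Pln).
-/

set_option autoImplicit false

open Filter Topology Polynomial Metric Set MeasureTheory

namespace Pool.Agent.H91.ATT

open Pool.Agent.H44.Fatou (rat rat_continuous rat_coe rat_coe_of_ne pt crit_coe)
open Pool.Agent.H56.HR (FS EqAt)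
open Pool.Agent.H32.BT Pool.Agent.H79.Eul Pool.Agent.H79.Par
open Pool.Agent.H35.EX Pool.Agent.H44.RR Pool.Agent.H44.RC Pool.Agent.H47.RJ
open Pool.Agent.H47.NN Pool.Agent.H44.ND Pool.Agent.H79.ES Pool.Agent.H44.TH
open Pool.Agent.H64.NC Pool.Agent.H61.TT Pool.Agent.H57.CP Pool.Agent.H3.NC
open Pool.Agent.H57.CF Pool.Agent.H47.NM
open Pool.Agent.H18.UP (PJ Cr)
open Pool.Agent.H27.BR (CD ps_ga jc_comp geo_cd cu_cd pj_sub jc_int)
open Pool.Agent.H56.UE (PUE pr_pue)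
open Pool.Agent.H15.LOC (UDn Lim att_cd at_orb)

/-- THEOREM ATT+, Julia set not the sphere -/
theorem atl_fam_p {d m : ℕ} (hd : 2 ≤ d) (hm : m ≤ d) {x : Em d m} (hcop : IsCoprime (pol x.1) (pol x.2))
    (hdeg : max (pol x.1).natDegree (pol x.2).natDegree = d) (hup : ¬ UpF d m x) (hF : (FS (Rf (ex d m x))).Nonempty)
    {c : OnePoint ℂ} (hc : IsCrit (Rf (ex d m x)) c) (hcJ : c ∈ JS (Rf (ex d m x))) : ATL (Rf (ex d m x)) c := by
  obtain ⟨D, u, φ, K, T, h, hmb⟩ := cdb hd hm hcop hdeg hup hF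
  have hue : ∀ c, IsCrit (Rf (ex d m x)) c → c ∈ JS (Rf (ex d m x)) → ¬ PUE (Rf (ex d m x)) (Rf (ex d m x) c) := fun c hc hcJ =>
    pr_pue (ex_cop hcop) (by rw [ex_deg hdeg]; omega) (pr_end hd hm hcop hdeg hup c hc hcJ)
  have hcu : Continuous (Rf u) := rat_continuous h.ga.cop
  have hJinf : OnePoint.infty ∉ JS (Rf u) := fun hn => hn h.ga.fi
  have hφJ : φ c ∈ JS (Rf u) := (js_conj φ (fun y => (h.conj y).symm) c).2 hcJ
  obtain ⟨c1, hc1⟩ : ∃ c1 : ℂ, φ c = (c1 : OnePoint ℂ) := by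
    have h1 : φ c ≠ OnePoint.infty := fun e => hJinf (e ▸ hφJ)
    obtain ⟨z, hz⟩ := OnePoint.ne_infty_iff_exists.1 h1
    exact ⟨z, hz.symm⟩
  have hc1J : (c1 : OnePoint ℂ) ∈ JS (Rf u) := hc1 ▸ hφJ
  have hPJ : closure (range fun n : ℕ => (Rf u)^[n] (c1 : OnePoint ℂ)) ⊆ JS (Rf u) := by
    refine closure_minimal ?_ (js_closed _)
    rintro _ ⟨n, rfl⟩
    exact h.ga.js n hc1J
  obtain ⟨M, hM⟩ : ∃ M : Set ℂ, M = {w : ℂ | (w : OnePoint ℂ) ∈ closure (range fun n : ℕ => (Rf u)^[n] (c1 : OnePoint ℂ))} := ⟨_, rfl⟩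
  obtain ⟨hMc, hc1M, hMb, hMi, hMm⟩ := at_orb hcu hM (fun hn => hJinf (hPJ hn))
  have hMJ : M ⊆ JC u := fun w hw => by
    rw [hM] at hw
    exact hPJ hw
  have hcc : IsCrit (Rf u) (c1 : OnePoint ℂ) := by
    rw [← hc1]
    exact (isCrit_conj φ h.conj c).2 hc
  have hcr : Cr (pol u.1) (pol u.2) c1 := ⟨hMb c1 hc1M, crit_coe hcc⟩
  obtain ⟨G, μ, C1, hGm, hGJ, hGi, hGv, hμm, -, hμ0, hμi, hμp⟩ := att_cd h hue hMc.isClosed hMJ hMi ⟨c1, hc1M, hcr⟩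
  refine atl_of (ex_cop hcop) ⟨h.ga.hd, h.ga.cop, h.ga.deg⟩ hmb h.bil h.conj hc1 hMb hMm hGm (fun z hz => hGJ hz)
    (fun z hz => h.ga.bne (hGJ hz)) hGi hGv hμm hμ0 hμi hμp

end Pool.Agent.H91.ATT
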