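import Pool.Agent.H15.LOC.All
import Pool.Agent.H91.ATT.Fam

/-!
# ATT+ with the line field: Julia set = sphere, all families

`ATX f c`: as `ATL`, the line field only if the orbit of `c` is not dense in the sphere. `atx_sph`: `at_sph` (H15/LOC/Sph) with Moebius charts. `atx_fam`: all families, all Julia sets.
-/

set_option autoImplicit false

open Filter Topology Polynomial Metric Set MeasureTheory

namespace Pool.Agent.H91.ATT

open Pool.Agent.H44.Fatou (rat rat_continuous rat_coe rat_coe_of_ne pt crit_coe)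
open Pool.Agent.H56.HR (FS EqAt)
open Pool.Agent.H32.BT Pool.Agent.H79.Eul Pool.Agent.H79.Par
open Pool.Agent.H35.EX Pool.Agent.H44.RR Pool.Agent.H44.RC Pool.Agent.H47.RJ
open Pool.Agent.H47.NM Pool.Agent.H47.NN Pool.Agent.H44.ND Pool.Agent.H79.ES Pool.Agent.H44.RG
open Pool.Agent.H44.CP Pool.Agent.H47.PS Pool.Agent.H64.NC Pool.Agent.H57.CF
open Pool.Agent.H64.JS (KJ kj_inv)
open Pool.Agent.H64.TP (KK)
open Pool.Agent.H61.TT (gg dg ww RatD pre)
open Pool.Agent.H31.LOC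
open Pool.Agent.H18.UP (Cr)
open Pool.Agent.H78.UX (kj_img)
open Pool.Agent.H47.LI
open Pool.Agent.H3.NC (mem_pre)
open Pool.Agent.H1.PU (KA)
open Pool.Agent.H15.LOC

variable {d : ℕ}

/-- a completely invariant set of positive area in the Julia set, all whose points visit every neighbourhood of the limit set of `c` with upper density one, with an invariant line field if the orbit of `c` is not dense -/
def ATX (f : OnePoint ℂ → OnePoint ℂ) (c : OnePoint ℂ) : Prop := ∃ G : Set (OnePoint ℂ), G ⊆ JS f ∧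
  (∀ x, f x ∈ G ↔ x ∈ G) ∧ MeasurableSet {z : ℂ | (z : OnePoint ℂ) ∈ G} ∧ 0 < volume {z : ℂ | (z : OnePoint ℂ) ∈ G} ∧
    (closure (range fun n : ℕ => f^[n] c) ≠ univ → ∃ ν : ℂ → ℂ, LFd f G ν) ∧ ∀ x ∈ G, UDn f (Lim f c) x

theorem atx_of {f : OnePoint ℂ → OnePoint ℂ} {c : OnePoint ℂ} (h : ATL f c) : ATX f c := by
  obtain ⟨G, ν, h1, h2, h3, h4, h5, h6⟩ := h
  exact ⟨G, h1, h2, h3, h4, fun _ => ⟨ν, h5⟩, h6⟩

theorem atx_sph {v : E d} (hd : 2 ≤ d) (hcop : IsCoprime (pol v.1) (pol v.2))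
    (hdeg : max (pol v.1).natDegree (pol v.2).natDegree = d) (hup : ¬ Up v) (hJ : JS (Rf v) = univ)
    {c : OnePoint ℂ} (hc : IsCrit (Rf v) c) : ATX (Rf v) c := by
  have hd1 : 1 ≤ max (pol v.1).natDegree (pol v.2).natDegree := by rw [hdeg]; omega
  by_cases hPu : closure (range fun n : ℕ => (Rf v)^[n] c) = univ
  · -- dense orbit
    obtain ⟨G, h1, h2, h3, h4, h5⟩ := at_sph hd hcop hdeg hup hJ hc
    exact ⟨G, h1, h2, h3, h4, fun h6 => absurd hPu h6, h5⟩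
  obtain ⟨q1, q2, q3, n12, n13, n23, e1, e2, e3⟩ := three_fix hd hcop hdeg hup hJ
  obtain ⟨L, G, φ, K, ⟨hch, hmb⟩, -, f0, f1, fi⟩ := ch_three_b (d := d) hd n12 n13 n23
  obtain ⟨hcop1, hdeg1, hφ⟩ := hch.conj v hcop hdeg
  have hup1 : ¬ Up (L v) := fun h =>
    hup (up_chart hd hch.cG hch.invL hch.invR (fun v h3 h4 => (hch.conj v h3 h4).2.2) hcop hdeg h)
  have hJS1 : JS (Rf (L v)) = univ := by
    rw [eq_univ_iff_forall]
    intro y
    obtain ⟨x, rfl⟩ := φ.surjective y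
    exact (js_conj φ (fun y => (hφ y).symm) x).2 (hJ ▸ mem_univ x)
  have h0 : Rf (L v) ((0 : ℂ) : OnePoint ℂ) = ((0 : ℂ) : OnePoint ℂ) := by rw [← f0, hφ, e1]
  have h1 : Rf (L v) ((1 : ℂ) : OnePoint ℂ) = ((1 : ℂ) : OnePoint ℂ) := by rw [← f1, hφ, e2]
  have hi : Rf (L v) OnePoint.infty = OnePoint.infty := by rw [← fi, hφ, e3]
  have hc1 : IsCrit (Rf (L v)) (φ c) := (isCrit_conj φ hφ c).2 hc
  have hcont1 : Continuous (Rf (L v)) := rat_continuous hcop1
  have hconj1 : ∀ (n : ℕ) (x : OnePoint ℂ), (Rf (L v))^[n] (φ x) = φ ((Rf v)^[n] x) := by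
    intro n
    induction n with
    | zero => exact fun _ => rfl
    | succ n ih =>
      intro x
      rw [Function.iterate_succ_apply, hφ, ih, Function.iterate_succ_apply]
  -- the closure of the orbit
  obtain ⟨P, hP⟩ : ∃ P : Set (OnePoint ℂ), P = closure (range fun n : ℕ => (Rf (L v))^[n] (φ c)) := ⟨_, rfl⟩
  have hPc : IsClosed P := hP ▸ isClosed_closure
  have hcPo : φ c ∈ P := by
    rw [hP]
    exact subset_closure ⟨0, rfl⟩
  have hPf : ∀ x ∈ P, Rf (L v) x ∈ P := by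
    intro x hx
    rw [hP] at hx ⊢
    refine closure_mono ?_ (image_closure_subset_closure_image hcont1 ⟨_, hx, rfl⟩)
    rintro _ ⟨_, ⟨n, rfl⟩, rfl⟩
    exact ⟨n + 1, Function.iterate_succ_apply' _ _ _⟩
  obtain ⟨y0, hy0⟩ : ∃ y0, y0 ∉ P := by
    by_contra hcon
    push Not at hcon
    refine hPu (eq_univ_iff_forall.2 fun x => ?_)
    have h2 : P ⊆ φ.symm ⁻¹' closure (range fun n : ℕ => (Rf v)^[n] c) := by
      rw [hP]
      refine closure_minimal ?_ (isClosed_closure.preimage φ.symm.continuous)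
      rintro _ ⟨n, rfl⟩
      show φ.symm ((Rf (L v))^[n] (φ c)) ∈ closure (range fun n : ℕ => (Rf v)^[n] c)
      rw [hconj1, φ.symm_apply_apply]
      exact subset_closure ⟨n, rfl⟩
    have h3 := h2 (hcon (φ x))
    have h4 : φ.symm (φ x) ∈ closure (range fun n : ℕ => (Rf v)^[n] c) := h3
    rwa [φ.symm_apply_apply] at h4
  -- three points
  have hd1' : 1 ≤ max (pol (L v).1).natDegree (pol (L v).2).natDegree := by rw [hdeg1]; omega
  have hfin : {x | IsCrit (Rf (L v)) x}.Finite := crit_finite hcop1 hd1'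
  obtain ⟨Q, hQ⟩ : ∃ Q : Set (OnePoint ℂ), Q = (⋃ e ∈ {x | IsCrit (Rf (L v)) x}, ⋃ n : ℕ, {z | (Rf (L v))^[n] z = e}) ∪
      Rf (L v) '' {x | IsCrit (Rf (L v)) x} := ⟨_, rfl⟩
  have hQc : Q.Countable := by
    rw [hQ]
    refine (hfin.countable.biUnion fun e _ => Set.countable_iUnion fun n => ?_).union (hfin.image _).countable
    exact (cnt_le (by omega) hcop1 hdeg1 n e).1.countable
  have hinf : {w : ℂ | (w : OnePoint ℂ) ∉ P ∧ (w : OnePoint ℂ) ∉ Q}.Infinite := by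
    have hO : IsOpen {w : ℂ | (w : OnePoint ℂ) ∉ P} := hPc.isOpen_compl.preimage OnePoint.continuous_coe
    obtain ⟨w, hw⟩ : ∃ w : ℂ, (w : OnePoint ℂ) ∉ P :=
      OnePoint.denseRange_coe.exists_mem_open hPc.isOpen_compl ⟨y0, hy0⟩
    intro hf
    have h2 : volume {w : ℂ | (w : OnePoint ℂ) ∉ P} = 0 := by
      refine measure_mono_null ?_ (measure_union_null (hf.measure_zero volume) ((countable_coe hQc).measure_zero volume))
      intro z hz
      by_cases hzQ : (z : OnePoint ℂ) ∈ Q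
      · exact Or.inr hzQ
      · exact Or.inl ⟨hz, hzQ⟩
    exact (hO.measure_pos volume ⟨w, hw⟩).ne' h2
  obtain ⟨t, ht, htc⟩ := hinf.exists_subset_card_eq 3
  obtain ⟨r1, r2, r3, m12, m13, m23, rfl⟩ := Finset.card_eq_three.1 htc
  have hr1 : (r1 : OnePoint ℂ) ∉ P ∧ (r1 : OnePoint ℂ) ∉ Q := ht (by simp)
  have hr2 : (r2 : OnePoint ℂ) ∉ P ∧ (r2 : OnePoint ℂ) ∉ Q := ht (by simp)
  have hr3 : (r3 : OnePoint ℂ) ∉ P ∧ (r3 : OnePoint ℂ) ∉ Q := ht (by simp)
  have hQn : ∀ r : OnePoint ℂ, r ∉ Q → ∀ e, IsCrit (Rf (L v)) e → (∀ n : ℕ, (Rf (L v))^[n] r ≠ e) ∧ Rf (L v) e ≠ r := by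
    intro r hr e he
    rw [hQ, mem_union, not_or] at hr
    refine ⟨fun n hn => hr.1 (mem_iUnion₂.2 ⟨e, he, mem_iUnion.2 ⟨n, hn⟩⟩), fun hn => hr.2 ⟨e, he, hn⟩⟩
  obtain ⟨L1, G1, φ1, K1, ⟨hch1, hmb1⟩, hcomp, g0, g1, gi⟩ := ch_three_b (d := d) hd (OnePoint.coe_injective.ne m12)
    (OnePoint.coe_injective.ne m13) (OnePoint.coe_injective.ne m23)
  obtain ⟨hcop2, hdeg2, hφ1⟩ := hch1.conj (L v) hcop1 hdeg1
  obtain ⟨-, -, hQ2⟩ := finq_comp hd hcomp hcop1 hdeg1 ⟨OnePoint.infty, hi, finp_s hd hcop1 hdeg1 hup1 hJS1 h0 h1 hi⟩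
  have hup2 : ¬ Up (L1 (L v)) := fun h =>
    hup1 (up_chart hd hch1.cG hch1.invL hch1.invR (fun v h3 h4 => (hch1.conj v h3 h4).2.2) hcop1 hdeg1 h)
  have hJS2 : JS (Rf (L1 (L v))) = univ := by
    rw [eq_univ_iff_forall]
    intro y
    obtain ⟨x, rfl⟩ := φ1.surjective y
    exact (js_conj φ1 (fun y => (hφ1 y).symm) x).2 (hJS1 ▸ mem_univ x)
  obtain ⟨c1, hcc1⟩ : ∃ c1 : ℂ, (c1 : OnePoint ℂ) = φ1 (φ c) := by
    refine OnePoint.ne_infty_iff_exists.1 fun h2 => hr3.1 ?_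
    rw [← gi] at h2
    rw [← φ1.injective h2]
    exact hcPo
  have hc2 : IsCrit (Rf (L1 (L v))) (c1 : OnePoint ℂ) := by
    rw [hcc1]
    exact (isCrit_conj φ1 hφ1 (φ c)).2 hc1
  have hconjn : ∀ (n : ℕ) (x : OnePoint ℂ), (Rf (L1 (L v)))^[n] (φ1 x) = φ1 ((Rf (L v))^[n] x) := by
    intro n
    induction n with
    | zero => exact fun _ => rfl
    | succ n ih =>
      intro x
      rw [Function.iterate_succ_apply, hφ1, ih, Function.iterate_succ_apply]
  have hPP : ∀ x, φ1 x ∈ closure (range fun n : ℕ => (Rf (L1 (L v)))^[n] (c1 : OnePoint ℂ)) → x ∈ P := by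
    intro x hx
    have h2 : closure (range fun n : ℕ => (Rf (L1 (L v)))^[n] (c1 : OnePoint ℂ)) ⊆ φ1.symm ⁻¹' P := by
      refine closure_minimal ?_ (hPc.preimage φ1.symm.continuous)
      rintro _ ⟨n, rfl⟩
      show φ1.symm ((Rf (L1 (L v)))^[n] (c1 : OnePoint ℂ)) ∈ P
      rw [hcc1, hconjn, φ1.symm_apply_apply, hP]
      exact subset_closure ⟨n, rfl⟩
    have h3 : φ1.symm (φ1 x) ∈ P := h2 hx
    rwa [φ1.symm_apply_apply] at h3
  obtain ⟨M, hM⟩ : ∃ M : Set ℂ, M = {w : ℂ | (w : OnePoint ℂ) ∈ closure (range fun n : ℕ => (Rf (L1 (L v)))^[n] (c1 : OnePoint ℂ))} :=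
    ⟨_, rfl⟩
  have hPi : OnePoint.infty ∉ closure (range fun n : ℕ => (Rf (L1 (L v)))^[n] (c1 : OnePoint ℂ)) := by
    rw [← gi]
    exact fun h2 => hr3.1 (hPP _ h2)
  have hM0 : (0 : ℂ) ∉ M := by
    rw [hM]
    show ¬ ((0 : ℂ) : OnePoint ℂ) ∈ closure (range fun n : ℕ => (Rf (L1 (L v)))^[n] (c1 : OnePoint ℂ))
    rw [← g0]
    exact fun h2 => hr1.1 (hPP _ h2)
  have hM1 : (1 : ℂ) ∉ M := by
    rw [hM]
    show ¬ ((1 : ℂ) : OnePoint ℂ) ∈ closure (range fun n : ℕ => (Rf (L1 (L v)))^[n] (c1 : OnePoint ℂ))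
    rw [← g1]
    exact fun h2 => hr2.1 (hPP _ h2)
  -- a finite fixed point
  obtain ⟨x0, hx0⟩ : ∃ x0 : ℂ, Rf (L1 (L v)) (x0 : OnePoint ℂ) = (x0 : OnePoint ℂ) := by
    by_cases h2 : φ1 ((0 : ℂ) : OnePoint ℂ) = OnePoint.infty
    · obtain ⟨x, hx⟩ : ∃ x : ℂ, (x : OnePoint ℂ) = φ1 ((1 : ℂ) : OnePoint ℂ) := by
        refine OnePoint.ne_infty_iff_exists.1 fun h3 => ?_
        have h4 := OnePoint.coe_injective (φ1.injective (h2.trans h3.symm))
        exact zero_ne_one h4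
      exact ⟨x, by rw [hx, hφ1, h1]⟩
    · obtain ⟨x, hx⟩ := OnePoint.ne_infty_iff_exists.1 h2
      exact ⟨x, by rw [hx, hφ1, h0]⟩
  -- the two cases
  have hcase : (KK (Rf (L1 (L v))) ≠ univ ∧ FinQ (L1 (L v))) ∨ ∃ e : ℂ, (pol (L1 (L v)).2).eval e ≠ 0 ∧
      dg (pol (L1 (L v)).1) (pol (L1 (L v)).2) e = 0 ∧
      gg (pol (L1 (L v)).1) (pol (L1 (L v)).2) e ∉ M ∧ gg (pol (L1 (L v)).1) (pol (L1 (L v)).2) e ≠ 0 ∧
      gg (pol (L1 (L v)).1) (pol (L1 (L v)).2) e ≠ 1 ∧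
      (∀ n : ℕ, (Rf (L1 (L v)))^[n] ((0 : ℂ) : OnePoint ℂ) ≠ (e : OnePoint ℂ)) ∧
      (∀ n : ℕ, (Rf (L1 (L v)))^[n] ((1 : ℂ) : OnePoint ℂ) ≠ (e : OnePoint ℂ)) ∧
      ∀ n : ℕ, (Rf (L1 (L v)))^[n] OnePoint.infty ≠ (e : OnePoint ℂ) := by
    by_cases hall : ∀ e, IsCrit (Rf (L v)) e → Rf (L v) e ∈ P
    · left
      refine ⟨fun h2 => hy0 ?_, hQ2⟩
      have h3 : KK (Rf (L v)) ⊆ P := by
        refine closure_minimal ?_ hPc
        rintro _ ⟨e, he, -, n, hn, rfl⟩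
        obtain ⟨m, rfl⟩ : ∃ m, n = m + 1 := ⟨n - 1, by omega⟩
        rw [Function.iterate_succ_apply]
        have h4 : ∀ m : ℕ, (Rf (L v))^[m] (Rf (L v) e) ∈ P := by
          intro m
          induction m with
          | zero => exact hall e he
          | succ m ih =>
            rw [Function.iterate_succ_apply']
            exact hPf _ ih
        exact h4 m
      apply h3
      refine (kj_img hφ1 y0).1 ?_
      show φ1 y0 ∈ KK (Rf (L1 (L v)))
      rw [h2]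
      exact mem_univ _
    · right
      push Not at hall
      obtain ⟨e', he', heP⟩ := hall
      have q1 := hQn _ hr1.2 e' he'
      have q2 := hQn _ hr2.2 e' he'
      have q3 := hQn _ hr3.2 e' he'
      obtain ⟨e, hee⟩ : ∃ e : ℂ, (e : OnePoint ℂ) = φ1 e' := by
        refine OnePoint.ne_infty_iff_exists.1 fun h2 => ?_
        rw [← gi] at h2
        exact q3.1 0 (φ1.injective h2).symm
      have hRe : Rf (L1 (L v)) (e : OnePoint ℂ) = φ1 (Rf (L v) e') := by rw [hee, hφ1]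
      have hbe : (pol (L1 (L v)).2).eval e ≠ 0 := by
        intro hb
        have h3 : Rf (L1 (L v)) (e : OnePoint ℂ) = OnePoint.infty := by
          show rat (pol (L1 (L v)).1) (pol (L1 (L v)).2) _ = _
          rw [rat_coe]
          unfold pt
          rw [if_pos hb]
        rw [hRe, ← gi] at h3
        exact q3.2 (φ1.injective h3)
      have hge : ((gg (pol (L1 (L v)).1) (pol (L1 (L v)).2) e : ℂ) : OnePoint ℂ) = φ1 (Rf (L v) e') := by
        rw [← hRe]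
        exact (rat_coe_of_ne hbe).symm
      have hcre : IsCrit (Rf (L1 (L v))) (e : OnePoint ℂ) := by
        rw [hee]
        exact (isCrit_conj φ1 hφ1 e').2 he'
      refine ⟨e, hbe, ?_, ?_, ?_, ?_, ?_, ?_, ?_⟩
      · unfold Pool.Agent.H61.TT.dg
        rw [show (ww (pol (L1 (L v)).1) (pol (L1 (L v)).2)).eval e = 0 from crit_coe hcre, zero_div]
      · intro h2
        rw [hM] at h2
        have h3 : ((gg (pol (L1 (L v)).1) (pol (L1 (L v)).2) e : ℂ) : OnePoint ℂ) ∈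
          closure (range fun n : ℕ => (Rf (L1 (L v)))^[n] (c1 : OnePoint ℂ)) := h2
        rw [hge] at h3
        exact heP (hPP _ h3)
      · intro h2
        rw [h2, ← g0] at hge
        exact q1.2 (φ1.injective hge).symm
      · intro h2
        rw [h2, ← g1] at hge
        exact q2.2 (φ1.injective hge).symm
      · intro n hn
        rw [← g0, hconjn, hee] at hn
        exact q1.1 n (φ1.injective hn)
      · intro n hn
        rw [← g1, hconjn, hee] at hn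
        exact q2.1 n (φ1.injective hn)
      · intro n hn
        rw [← gi, hconjn, hee] at hn
        exact q3.1 n (φ1.injective hn)
  obtain ⟨G', μ, C1, hGm, hGb, hGi, hGv, hμm, -, hμ0, hμi, hμp⟩ :=
    at_chart hd hcop2 hdeg2 hup2 hJS2 hx0 hc2 hM hPi hM0 hM1 hcase
  have hcu : Continuous (Rf (L1 (L v))) := rat_continuous hcop2
  obtain ⟨-, -, hMb, -, hMm⟩ := at_orb hcu hM hPi
  have hch2 := ch_comp hch hch1
  exact atx_of (atl_of (φ := φ.trans φ1) hcop ⟨hd, hcop2, hdeg2⟩ (mb_comp hmb hmb1) hch2.bil (hch2.conj v hcop hdeg).2.2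
    (c := c) (c1 := c1) hcc1.symm hMb hMm hGm (fun z _ => hJS2 ▸ mem_univ _) hGb hGi hGv hμm hμ0 hμi hμp)

/-- THEOREM ATT+ -/
theorem atx_fam {m : ℕ} (hd : 2 ≤ d) (hm : m ≤ d) {x : Em d m} (hcop : IsCoprime (pol x.1) (pol x.2))
    (hdeg : max (pol x.1).natDegree (pol x.2).natDegree = d) (hup : ¬ UpF d m x)
    {c : OnePoint ℂ} (hc : IsCrit (Rf (ex d m x)) c) (hcJ : c ∈ JS (Rf (ex d m x))) : ATX (Rf (ex d m x)) c := by
  by_cases hJ : JS (Rf (ex d m x)) = univ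
  · rcases Nat.lt_or_ge m 2 with h2 | h2
    · have hup1 : ¬ Up (ex d m x) := by
        rcases Nat.lt_or_ge m 1 with h1 | h1
        · obtain rfl : m = 0 := by omega
          exact fun h => hup (up_zero h)
        · obtain rfl : m = 1 := by omega
          exact fun h => hup (Pool.Agent.H64.PF.up_one hd hcop hdeg h)
      exact atx_sph hd (ex_cop hcop) (ex_deg hdeg) hup1 hJ hc
    · exfalso
      obtain ⟨D, u, φ, K, T, h, -⟩ := Pool.Agent.H31.UDC.cdx_upF hd h2 hm hcop hdeg hup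
      obtain ⟨y, hy⟩ := φ.surjective OnePoint.infty
      have h3 : φ y ∈ JS (Rf u) := (js_conj φ (fun y => (h.conj y).symm) y).2 (hJ ▸ mem_univ y)
      rw [hy] at h3
      exact h3 h.ga.fi
  · have hF : (FS (Rf (ex d m x))).Nonempty := by
      by_contra h1
      refine hJ ?_
      show (FS (Rf (ex d m x)))ᶜ = univ
      rw [Set.not_nonempty_iff_eq_empty.1 h1, Set.compl_empty]
    exact atx_of (atl_fam_p hd hm hcop hdeg hup hF hc hcJ)

end Pool.Agent.H91.ATT
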