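import Mathlib

/-!
# ATT+: Moebius homeomorphisms of the sphere in homogeneous coordinates

`prj x y` is the point `x / y` of the sphere (infinity for `y = 0`). `Mb φ`: `φ (prj x y) = prj (a x + b y) (c x + e y)` with `a e - b c ≠ 0`. Compositions, inverses, `1 / (z - s)`, translations.
-/

set_option autoImplicit false

namespace Pool.Agent.H91.ATT

/-- the point `x / y` -/
noncomputable def prj (x y : ℂ) : OnePoint ℂ := if y = 0 then OnePoint.infty else ((x / y : ℂ) : OnePoint ℂ)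

theorem prj_zero (x : ℂ) : prj x 0 = OnePoint.infty := if_pos rfl

theorem prj_ne {x y : ℂ} (h : y ≠ 0) : prj x y = ((x / y : ℂ) : OnePoint ℂ) := if_neg h

theorem prj_one (z : ℂ) : prj z 1 = (z : OnePoint ℂ) := by
  rw [prj_ne one_ne_zero, div_one]

/-- `φ` is a Moebius map -/
def Mb (φ : OnePoint ℂ ≃ₜ OnePoint ℂ) : Prop := ∃ a b c e : ℂ, a * e - b * c ≠ 0 ∧
  ∀ x y : ℂ, (x ≠ 0 ∨ y ≠ 0) → φ (prj x y) = prj (a * x + b * y) (c * x + e * y)

theorem nz {a b c e x y : ℂ} (h : a * e - b * c ≠ 0) (hxy : x ≠ 0 ∨ y ≠ 0) : a * x + b * y ≠ 0 ∨ c * x + e * y ≠ 0 := by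
  by_contra hcon
  push Not at hcon
  obtain ⟨h1, h2⟩ := hcon
  have h3 : (a * e - b * c) * x = 0 := by linear_combination e * h1 - b * h2
  have h4 : (a * e - b * c) * y = 0 := by linear_combination a * h2 - c * h1
  rcases hxy with hx | hy
  · exact hx ((mul_eq_zero.1 h3).resolve_left h)
  · exact hy ((mul_eq_zero.1 h4).resolve_left h)

theorem mb_comp {φ1 φ2 : OnePoint ℂ ≃ₜ OnePoint ℂ} (h1 : Mb φ1) (h2 : Mb φ2) : Mb (φ1.trans φ2) := by
  obtain ⟨a, b, c, e, hD, h⟩ := h1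
  obtain ⟨a', b', c', e', hD', h'⟩ := h2
  refine ⟨a' * a + b' * c, a' * b + b' * e, c' * a + e' * c, c' * b + e' * e, ?_, fun x y hxy => ?_⟩
  · have e1 : (a' * a + b' * c) * (c' * b + e' * e) - (a' * b + b' * e) * (c' * a + e' * c) =
        (a' * e' - b' * c') * (a * e - b * c) := by ring
    rw [e1]
    exact mul_ne_zero hD' hD
  · show φ2 (φ1 (prj x y)) = _
    rw [h x y hxy, h' _ _ (nz hD hxy)]
    congr 1 <;> ring

theorem prj_smul {t x y : ℂ} (ht : t ≠ 0) : prj (t * x) (t * y) = prj x y := by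
  by_cases hy : y = 0
  · subst hy
    rw [mul_zero, prj_zero, prj_zero]
  · rw [prj_ne hy, prj_ne (mul_ne_zero ht hy), mul_div_mul_left _ _ ht]

theorem mb_symm {φ : OnePoint ℂ ≃ₜ OnePoint ℂ} (h : Mb φ) : Mb φ.symm := by
  obtain ⟨a, b, c, e, hD, h⟩ := h
  have hD' : e * a - (-b) * (-c) ≠ 0 := by
    intro h0
    apply hD
    linear_combination h0
  refine ⟨e, -b, -c, a, hD', fun x y hxy => ?_⟩
  rw [Homeomorph.symm_apply_eq, h _ _ (nz hD' hxy)]
  rw [← prj_smul (x := x) (y := y) hD]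
  congr 1 <;> ring

theorem mb_mob {s : ℂ} {φ : OnePoint ℂ ≃ₜ OnePoint ℂ}
    (hφ : ∀ z : ℂ, z ≠ s → φ (z : OnePoint ℂ) = (((z - s)⁻¹ : ℂ) : OnePoint ℂ))
    (hs : φ (s : OnePoint ℂ) = OnePoint.infty) (hi : φ OnePoint.infty = ((0 : ℂ) : OnePoint ℂ)) : Mb φ := by
  refine ⟨0, 1, 1, -s, by rw [zero_mul, one_mul, zero_sub]; exact neg_ne_zero.2 one_ne_zero, fun x y hxy => ?_⟩
  rw [zero_mul, zero_add, one_mul, one_mul]
  by_cases hy : y = 0
  · subst hy
    have hx : x ≠ 0 := by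
      rcases hxy with hx | hx
      · exact hx
      · exact absurd rfl hx
    rw [prj_zero, hi, mul_zero, add_zero, prj_ne hx, zero_div]
  · rw [prj_ne hy]
    by_cases hz : x / y = s
    · have h1 : x + -s * y = 0 := by
        rw [div_eq_iff hy] at hz
        linear_combination hz
      rw [hz, hs, h1, prj_zero]
    · have h1 : x + -s * y ≠ 0 := by
        intro h0
        apply hz
        rw [div_eq_iff hy]
        linear_combination h0
      rw [hφ _ hz, prj_ne h1]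
      congr 1
      have h2 : x / y - s = (x + -s * y) / y := by
        field_simp
        ring
      rw [h2, inv_div]

theorem mb_tr {s : ℂ} {φ : OnePoint ℂ ≃ₜ OnePoint ℂ} (hφ : ∀ z : ℂ, φ (z : OnePoint ℂ) = ((z - s : ℂ) : OnePoint ℂ))
    (hi : φ OnePoint.infty = OnePoint.infty) : Mb φ := by
  refine ⟨1, -s, 0, 1, by rw [mul_one, mul_zero, sub_zero]; exact one_ne_zero, fun x y hxy => ?_⟩
  rw [one_mul, zero_mul, zero_add, one_mul]
  by_cases hy : y = 0
  · subst hy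
    rw [prj_zero, prj_zero, hi]
  · rw [prj_ne hy, prj_ne hy, hφ]
    congr 1
    field_simp
    ring

theorem mb_refl : Mb (Homeomorph.refl (OnePoint ℂ)) := by
  refine ⟨1, 0, 0, 1, by rw [mul_one, mul_zero, sub_zero]; exact one_ne_zero, fun x y _ => ?_⟩
  rw [one_mul, zero_mul, zero_mul, one_mul, add_zero, zero_add]
  rfl

/-- the map in the plane -/
theorem mb_plane {φ : OnePoint ℂ ≃ₜ OnePoint ℂ} (h : Mb φ) : ∃ a b c e : ℂ, a * e - b * c ≠ 0 ∧
    (∀ z : ℂ, c * z + e ≠ 0 → φ (z : OnePoint ℂ) = (((a * z + b) / (c * z + e) : ℂ) : OnePoint ℂ)) ∧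
    ∀ z : ℂ, c * z + e = 0 → φ (z : OnePoint ℂ) = OnePoint.infty := by
  obtain ⟨a, b, c, e, hD, h⟩ := h
  have key : ∀ z : ℂ, φ (z : OnePoint ℂ) = prj (a * z + b) (c * z + e) := by
    intro z
    have h1 := h z 1 (Or.inr one_ne_zero)
    rwa [prj_one, mul_one, mul_one] at h1
  refine ⟨a, b, c, e, hD, fun z hz => ?_, fun z hz => ?_⟩
  · rw [key, prj_ne hz]
  · rw [key, hz, prj_zero]

end Pool.Agent.H91.ATT
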