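import Mathlib
import Pool.Agent.H91.ATT.All
import Pool.Agent.H32.RB.Main

/-!
# Line fields of the critical points in the Julia set and their attractors

The work is in: `H15/LOC` (the critical point and its sets of positive area: `Abd`, `Apf`, `Off`, `Vis`, `Lod`; charts: `Pln`,
`Fam`; the Julia set is the sphere: `Ker`, `Vel`, `FinV`, `LdG`, `Nmz`, `Sph`), `H91/ATT` (exactly invariant line fields,
Moebius charts), `H31/LOC`, `H47/LI`, `H18/WE`, `H66/IV` (push forward operators and their kernels), `H3/NC`, `H64/NC`,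
`H57/CF`, `H61/TT`, `H79/ES`, `H56/HR`, `H44/RC`, `H47/RJ`, `H47/PS`.
-/

set_option autoImplicit false

namespace Pool.Agent.H91.ATT.Fin

open Polynomial Filter Topology MeasureTheory

/-- `f` is the rational map `P/Q` on the sphere. -/
def IsMap (f : OnePoint ℂ → OnePoint ℂ) (P Q : Polynomial ℂ) : Prop :=
  Continuous f ∧
    ∀ z : ℂ, Q.eval z ≠ 0 → f (OnePoint.some z) = OnePoint.some (P.eval z / Q.eval z)

/-- `c` is a critical point of `f`. -/
def IsCritical (f : OnePoint ℂ → OnePoint ℂ) (c : OnePoint ℂ) : Prop :=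
  ¬ ∃ U ∈ nhds c, Set.InjOn f U

/-- `c` is attracted by an attracting cycle of `f` (words of the frozen statement `S05373`). -/
def IsAttracted (f : OnePoint ℂ → OnePoint ℂ) (c : OnePoint ℂ) : Prop :=
  ∃ z : OnePoint ℂ, ∃ n : ℕ, 0 < n ∧ f^[n] z = z ∧
    (∃ U ∈ nhds z, ∀ w ∈ U,
      Filter.Tendsto (fun k : ℕ => f^[n * k] w) Filter.atTop (nhds z)) ∧
    Filter.Tendsto (fun k : ℕ => f^[n * k] c) Filter.atTop (nhds z)

/-- The number of the critical points which are attracted by attracting cycles. -/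
noncomputable def attractedNumber (f : OnePoint ℂ → OnePoint ℂ) : ℕ :=
  {c : OnePoint ℂ | IsCritical f c ∧ IsAttracted f c}.ncard

/-- The chordal distance of the Riemann sphere. -/
noncomputable def chordal : OnePoint ℂ → OnePoint ℂ → ℝ
  | OnePoint.some z, OnePoint.some w => ‖z - w‖ / (√(1 + ‖z‖ ^ 2) * √(1 + ‖w‖ ^ 2))
  | OnePoint.some z, OnePoint.infty => 1 / √(1 + ‖z‖ ^ 2)
  | OnePoint.infty, OnePoint.some w => 1 / √(1 + ‖w‖ ^ 2)
  | OnePoint.infty, OnePoint.infty => 0

/-- The Julia set of `f`: the points without a neighbourhood at whose points the iterates of `f` are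
equicontinuous for the chordal distance. -/
def julia (f : OnePoint ℂ → OnePoint ℂ) : Set (OnePoint ℂ) :=
  (interior {x | ∀ ε : ℝ, 0 < ε → ∀ᶠ y in nhds x, ∀ n : ℕ, chordal (f^[n] x) (f^[n] y) < ε})ᶜ

/-- The limit set of the orbit of `x`. -/
def limitSet (f : OnePoint ℂ → OnePoint ℂ) (x : OnePoint ℂ) : Set (OnePoint ℂ) :=
  {y | MapClusterPt y atTop fun n : ℕ => f^[n] x}

/-- The orbit of `x` visits `U` with upper density one: for every `ε > 0` there are arbitrarily large `n` such that at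
least `(1 - ε) n` of the points `x, f(x), .., f^(n-1)(x)` lie in `U`. -/
def VisitsWithUpperDensityOne (f : OnePoint ℂ → OnePoint ℂ) (U : Set (OnePoint ℂ)) (x : OnePoint ℂ) : Prop :=
  ∀ ε : ℝ, 0 < ε → ∀ n0 : ℕ, ∃ n ≥ n0, (1 - ε) * n ≤ ({k | k < n ∧ f^[k] x ∈ U} : Set ℕ).ncard

/-- The part of `G` in the plane. -/
def planePart (G : Set (OnePoint ℂ)) : Set ℂ := {z : ℂ | (z : OnePoint ℂ) ∈ G}

/-- The map `f` in the plane (`0` where `f` is infinite). -/
noncomputable def affine (f : OnePoint ℂ → OnePoint ℂ) (z : ℂ) : ℂ := OnePoint.elim (f (z : OnePoint ℂ)) 0 id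

/-- `μ` is an invariant line field of `f` on `G`: measurable, of modulus one on `G`, and
`μ(f(z)) conj f'(z) = μ(z) f'(z)` for all finite points `z` of `G` with `f(z)` finite. -/
def IsInvariantLineField (f : OnePoint ℂ → OnePoint ℂ) (G : Set (OnePoint ℂ)) (μ : ℂ → ℂ) : Prop :=
  Measurable μ ∧ (∀ z ∈ planePart G, ‖μ z‖ = 1) ∧
    ∀ z w : ℂ, z ∈ planePart G → f (z : OnePoint ℂ) = (w : OnePoint ℂ) →
      μ w * (starRingEnd ℂ) (deriv (affine f) z) = μ z * deriv (affine f) z

/-- There is a completely invariant measurable set `G` of positive area in the Julia set such that all points of `G`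
visit every neighbourhood of the limit set of `c` with upper density one, and there is an invariant line field on `G` if
the orbit of `c` is not dense in the sphere. -/
def HasAttractedLineField (f : OnePoint ℂ → OnePoint ℂ) (c : OnePoint ℂ) : Prop :=
  ∃ G ⊆ julia f, (∀ x, f x ∈ G ↔ x ∈ G) ∧ MeasurableSet (planePart G) ∧ 0 < volume (planePart G) ∧
    (∀ x ∈ G, ∀ U : Set (OnePoint ℂ), IsOpen U → limitSet f c ⊆ U → VisitsWithUpperDensityOne f U x) ∧
    (closure (Set.range fun n : ℕ => f^[n] c) ≠ Set.univ → ∃ μ : ℂ → ℂ, IsInvariantLineField f G μ)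

/-- All critical points in the Julia set have the property `HasAttractedLineField`. -/
def HasLineFields (f : OnePoint ℂ → OnePoint ℂ) : Prop :=
  ∀ c, IsCritical f c → c ∈ julia f → HasAttractedLineField f c

/-- `f` and `g` are topologically conjugate. -/
def AreConjugate (f g : OnePoint ℂ → OnePoint ℂ) : Prop :=
  ∃ h : OnePoint ℂ ≃ₜ OnePoint ℂ, ∀ x, h (f x) = g (h x)

/-- The polynomial of degree at most `d` with coefficients `v`. -/
noncomputable def poly {d : ℕ} (v : Fin (d + 1) → ℂ) : Polynomial ℂ := ∑ i, C (v i) * X ^ (i : ℕ)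

/-- Pairs of polynomials `P`, `Q` with `deg P ≤ d`, `deg Q ≤ d - m`, given by their coefficients. -/
abbrev Pairs (d m : ℕ) : Type := (Fin (d + 1) → ℂ) × (Fin (d - m + 1) → ℂ)

/-- `f = P/Q` is the rational map of degree exactly `d` given by the pair `v = (P, Q)` of coprime
polynomials, `deg Q ≤ d - m`. For `m = 0` these are all rational maps of degree `d`, for `m ≥ 1` those
which fix infinity with local degree at least `m`, for `m = d` the polynomials (up to the constant `Q`). -/
def IsRational {d m : ℕ} (v : Pairs d m) (f : OnePoint ℂ → OnePoint ℂ) : Prop :=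
  IsCoprime (poly v.1) (poly v.2) ∧ max (poly v.1).natDegree (poly v.2).natDegree = d ∧
    IsMap f (poly v.1) (poly v.2)

theorem chord_eq (x y : OnePoint ℂ) : chordal x y = Pool.Agent.H35.EX.chord x y := by
  induction x using OnePoint.rec with
  | infty =>
    induction y using OnePoint.rec with
    | infty => rfl
    | coe y => rfl
  | coe x =>
    induction y using OnePoint.rec with
    | infty => rfl
    | coe y => rfl

theorem julia_eq (f : OnePoint ℂ → OnePoint ℂ) : julia f = Pool.Agent.H44.RC.JS f := by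
  unfold julia Pool.Agent.H44.RC.JS Pool.Agent.H56.HR.FS Pool.Agent.H56.HR.EqAt
  simp only [chord_eq]

theorem att_iff {f : OnePoint ℂ → OnePoint ℂ} {c : OnePoint ℂ} :
    Pool.Agent.H32.BT.Att f c ↔ IsAttracted f c := by
  constructor
  · rintro ⟨z, n, ⟨h1, h2, h3⟩, h4⟩
    exact ⟨z, n, h1, h2, h3, h4⟩
  · rintro ⟨z, n, h1, h2, h3, h4⟩
    exact ⟨z, n, ⟨h1, h2, h3⟩, h4⟩

theorem number_eq {d : ℕ} (v : Pool.Agent.H79.Eul.E d) :
    attractedNumber (Pool.Agent.H79.Par.Rf v) = Pool.Agent.H79.ES.NA v := by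
  unfold attractedNumber Pool.Agent.H79.ES.NA
  congr 1
  ext c
  exact and_congr Iff.rfl att_iff.symm

theorem map_eq {d m : ℕ} (hd : 2 ≤ d) {v : Pairs d m} {f : OnePoint ℂ → OnePoint ℂ} (h : IsRational v f) :
    f = Pool.Agent.H79.Par.Rf (Pool.Agent.H47.NM.ex d m v) := by
  obtain ⟨h1, h2, h3⟩ := h
  have h1' : IsCoprime (Pool.Agent.H79.Eul.pol v.1) (Pool.Agent.H79.Eul.pol v.2) := h1
  have h2' : max (Pool.Agent.H79.Eul.pol v.1).natDegree (Pool.Agent.H79.Eul.pol v.2).natDegree = d := h2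
  have hB0 : Pool.Agent.H79.Eul.pol v.2 ≠ 0 := Pool.Agent.H32.BT.den_ne_zero h1' (by omega)
  have h4 := Pool.Agent.H32.RB.ext_eq h1' hB0 h3
  unfold Pool.Agent.H79.Par.Rf
  rw [(Pool.Agent.H47.NM.ex_pol v).1, (Pool.Agent.H47.NM.ex_pol v).2]
  exact h4

theorem rat_is {d m : ℕ} {v : Pairs d m} (h1 : IsCoprime (poly v.1) (poly v.2))
    (h2 : max (poly v.1).natDegree (poly v.2).natDegree = d) : IsRational v
      (Pool.Agent.H79.Par.Rf (Pool.Agent.H47.NM.ex d m v)) := by
  have h1' : IsCoprime (Pool.Agent.H79.Eul.pol v.1) (Pool.Agent.H79.Eul.pol v.2) := h1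
  unfold Pool.Agent.H79.Par.Rf
  rw [(Pool.Agent.H47.NM.ex_pol v).1, (Pool.Agent.H47.NM.ex_pol v).2]
  refine ⟨h1, h2, Pool.Agent.H44.Fatou.rat_continuous h1', fun z hz => ?_⟩
  exact Pool.Agent.H44.Fatou.rat_coe_of_ne hz

theorem hl_of {f : OnePoint ℂ → OnePoint ℂ} {c : OnePoint ℂ} (h : Pool.Agent.H91.ATT.ATX f c) :
    HasAttractedLineField f c := by
  obtain ⟨G, h1, h2, h3, h4, h5, h6⟩ := h
  refine ⟨G, by rw [julia_eq]; exact h1, h2, h3, h4, fun x hx U hU hL ε hε n0 => ?_, fun hd => ?_⟩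
  · exact h6 x hx U hU hL ε hε n0
  · obtain ⟨ν, h7, h8, h9⟩ := h5 hd
    exact ⟨ν, h7, h8, h9⟩

/-- The dichotomy for one map. -/
theorem dich {d m : ℕ} (hd : 2 ≤ d) (hm : m ≤ d) {v : Pairs d m}
    {f : OnePoint ℂ → OnePoint ℂ} (hf : IsRational v f) :
    HasLineFields f ∨
      ∀ ε : ℝ, 0 < ε → ∃ w ∈ Metric.ball v ε, ∃ g, IsRational w g ∧ attractedNumber f < attractedNumber g := by
  have h1 := hf.1
  have h2 := hf.2.1
  have hfe := map_eq hd hf
  subst hfe
  by_cases hup : Pool.Agent.H57.CF.UpF d m v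
  · right
    intro ε hε
    obtain ⟨w, hw, h3, h4, h5⟩ := hup ε hε
    refine ⟨w, hw, _, rat_is h3 h4, ?_⟩
    rw [number_eq, number_eq]
    exact h5
  · left
    intro c hc hcJ
    rw [julia_eq] at hcJ
    exact hl_of (Pool.Agent.H91.ATT.atx_fam hd hm h1 h2 hup hc hcJ)

/-- The exceptional maps are nowhere dense. -/
theorem exc_nwd {d m : ℕ} (hd : 2 ≤ d) (hm : m ≤ d) :
    IsNowhereDense {v : Pairs d m | ∃ f : OnePoint ℂ → OnePoint ℂ, IsRational v f ∧ ¬ HasLineFields f} := by
  refine (Pool.Agent.H57.CF.upF_nwd hd).mono ?_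
  rintro v ⟨f, hf, hn⟩
  refine ⟨hf.1, hf.2.1, fun ε hε => ?_⟩
  have hfe := map_eq hd hf
  subst hfe
  obtain ⟨w, hw, g, hg, hlt⟩ := (dich hd hm hf).resolve_left hn ε hε
  have hge := map_eq hd hg
  subst hge
  refine ⟨w, hw, hg.1, hg.2.1, ?_⟩
  rw [number_eq, number_eq] at hlt
  exact hlt

/-- Conjugate maps have the same number of attracted critical points. -/
theorem number_conj {f g : OnePoint ℂ → OnePoint ℂ} (h : AreConjugate f g) :
    attractedNumber f = attractedNumber g := by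
  obtain ⟨φ, hφ⟩ := h
  unfold attractedNumber
  have h1 : {c : OnePoint ℂ | IsCritical g c ∧ IsAttracted g c} =
      φ '' {c : OnePoint ℂ | IsCritical f c ∧ IsAttracted f c} := by
    ext y
    obtain ⟨x, rfl⟩ := φ.surjective y
    have h2 : IsCritical g (φ x) ↔ IsCritical f x :=
      Pool.Agent.H32.BT.isCrit_conj φ (fun y => (hφ y).symm) x
    have h3 := Pool.Agent.H32.BT.att_conj φ (fun y => (hφ y).symm) x
    rw [att_iff, att_iff] at h3
    constructor
    · rintro ⟨h4, h5⟩
      exact ⟨x, ⟨h2.1 h4, h3.1 h5⟩, rfl⟩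
    · rintro ⟨z, ⟨h4, h5⟩, he⟩
      rw [φ.injective he] at h4 h5
      exact ⟨h2.2 h4, h3.2 h5⟩
  rw [h1, Set.ncard_image_of_injective _ φ.injective]

theorem stable {d m : ℕ} (hd : 2 ≤ d) (hm : m ≤ d) {v : Pairs d m}
    {f : OnePoint ℂ → OnePoint ℂ} (hf : IsRational v f) {ε : ℝ} (hε : 0 < ε)
    (hs : ∀ w ∈ Metric.ball v ε, ∀ g, IsRational w g → AreConjugate f g) : HasLineFields f := by
  refine (dich hd hm hf).resolve_right fun h => ?_
  obtain ⟨w, hw, g, hg, hlt⟩ := h ε hε
  exact hlt.ne (number_conj (hs w hw g hg))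

/-- Let `2 ≤ d`, `m ≤ d`, and consider the rational maps `f = P/Q` of degree `d` with `deg Q ≤ d - m`
(`m = 0`: all rational maps of degree `d`; `m = d`: all polynomials of degree `d`).
(1) If all maps of the family near `f` are topologically conjugate to `f`, then every critical point `c` in the Julia set
has the property `HasAttractedLineField`. (2) EVERY `f` has this property, or there are maps of the family arbitrarily near `f`
with more critical points which are attracted by attracting cycles. (3) The maps without this property are nowhere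
dense. -/
theorem result (d m : ℕ) (hd : 2 ≤ d) (hm : m ≤ d) :
    (∀ (v : Pairs d m) (f : OnePoint ℂ → OnePoint ℂ), IsRational v f →
      (∃ ε : ℝ, 0 < ε ∧ ∀ w ∈ Metric.ball v ε, ∀ g, IsRational w g → AreConjugate f g) → HasLineFields f) ∧
    (∀ (v : Pairs d m) (f : OnePoint ℂ → OnePoint ℂ), IsRational v f →
      HasLineFields f ∨
        ∀ ε : ℝ, 0 < ε → ∃ w ∈ Metric.ball v ε, ∃ g, IsRational w g ∧ attractedNumber f < attractedNumber g) ∧
    IsNowhereDense {v : Pairs d m | ∃ f : OnePoint ℂ → OnePoint ℂ, IsRational v f ∧ ¬ HasLineFields f} :=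
  ⟨fun _ _ hf h => by
    obtain ⟨ε, hε, hs⟩ := h
    exact stable hd hm hf hε hs, fun _ _ hf => dich hd hm hf, exc_nwd hd hm⟩

end Pool.Agent.H91.ATT.Fin
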